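import Pool.Agent.helper74.MQ.Spec
import Pool.Agent.helper11.MP.FA
import Pool.Agent.helper59.MP.FB
import Pool.Agent.helper91.MP.FD

/-!
# Project mq: (MP_af9036_an): application of Theorem A' to the parameter plane (modules THB, FA1, FB1, FD1, FC1)

The proofs are those of the modules THA (helper20), FA (helper11), FB (helper59), FD (helper91), FC (helper78) of project mp:.
-/

set_option autoImplicit false

open Complex Metric Set Filter Topology MeasureTheory MPS

noncomputable section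

namespace MQ

open Pool.Agent.helper16.Multibrot

/-- the direction of `ρ` is at distance at least `d` from `1`. -/
def Sep1 (d : ℝ) (ρ : ℂ) : Prop := d ≤ ‖ρ / ‖ρ‖ - 1‖

def FA1_stmt : Prop := ∀ n : ℕ, 2 ≤ n → ∀ d > (0 : ℝ), ∃ ε > (0 : ℝ), ∀ (k : ℕ) (U : Set ℂ)
  (z : ℂ → ℂ), 0 < k → IsOpen U → DifferentiableOn ℂ z U →
  (∀ c ∈ U, Function.minimalPeriod (fc n c) (z c) = k) → ∀ c ∈ U, 1 < ‖mlt n k c (z c)‖ →
  Sep1 d (mlt n k c (z c)) →
    ε ≤ Real.log ‖mlt n k c (z c)‖ + ‖deriv (fun c' => mlt n k c' (z c')) c / mlt n k c (z c)‖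

def FB1_stmt : Prop := ∀ n : ℕ, 2 ≤ n → ∀ d > (0 : ℝ), ∃ ε > (0 : ℝ), ∀ (c : ℂ) (r : ℝ), 0 < r →
  r ≤ 1 → Disjoint (ball c r) (hyperbolic n) → ∀ (k : ℕ) (z : ℂ), 0 < k →
  Function.minimalPeriod (fc n c) z = k → Sep1 d (mlt n k c z) →
    ε * r ≤ Real.log ‖mlt n k c z‖

def FD1_stmt : Prop := ∀ n : ℕ, 2 ≤ n → ∀ d > (0 : ℝ), ∃ K : ℝ, ∀ c ∈ multibrot n, ∀ (k : ℕ) (z : ℂ),
  0 < k → Function.minimalPeriod (fc n c) z = k → 1 < ‖mlt n k c z‖ → Sep1 d (mlt n k c z) →
    infDist c (hyperbolic n) ≤ K * Real.log ‖mlt n k c z‖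

def FC1_stmt : Prop := ∀ n : ℕ, 2 ≤ n → ∀ c ζ : ℂ, ‖ζ‖ = 1 → ζ ≠ 1 →
  (∀ η > (0 : ℝ), ∃ (k : ℕ) (z : ℂ), 0 < k ∧ Function.minimalPeriod (fc n c) z = k ∧
    ‖mlt n k c z - ζ‖ < η) → c ∈ closure (hyperbolic n)

theorem THB (hMAINA : MAINB_stmt) (hTGP : TGP_stmt) : THB_stmt := by
  intro n d₀ hn hd₀
  obtain ⟨R, hR, ε', hε', hmain⟩ := hMAINA n d₀ hn hd₀
  have hpi : 0 < Real.pi := Real.pi_pos
  have hR0 : 0 < R := by linarith
  refine ⟨ε' / (32 * Real.pi * R), by positivity, ?_⟩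
  intro k _ c b g hk hc hcyc hrho hj hg
  by_contra hcon
  push Not at hcon
  obtain ⟨g', hg', hint⟩ := hTGP n k c b g R hn hcyc hc hR hg (ε' / 16) (by positivity)
  refine hmain k c b g' hk hc hcyc hrho hj hg' ?_
  have hlog : 0 < Real.log ‖rho n b‖ := Real.log_pos hrho
  have h1 : Real.log ‖rho n b‖ + ‖∑ i, g i‖ ≤ ε' / (32 * Real.pi * R) := hcon.le
  have h2 : (Real.log ‖rho n b‖ + ‖∑ i, g i‖) * (32 * Real.pi * R) ≤ ε' :=
    (le_div_iff₀ (by positivity)).1 h1
  have h3 : 2 * Real.pi * Real.log ‖rho n b‖ ≤ 16 * Real.pi * R * Real.log ‖rho n b‖ := by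
    apply mul_le_mul_of_nonneg_right _ hlog.le
    nlinarith
  nlinarith [h2, h3, hint]

theorem FA1 (hBIG : ZBIG_stmt) (hK1 : ZK1_stmt) (hCYC : ZCYC_stmt) (hTG : TG_stmt) (hZL : ZL_stmt)
    (hTHA : THB_stmt) : FA1_stmt := by
  intro n hn d hd
  obtain ⟨ε₁, hε₁, hT⟩ := hTHA n d hn hd
  have hlog : 0 < Real.log (3 / 2) := Real.log_pos (by norm_num)
  refine ⟨min (min ε₁ (1 / 12)) (Real.log (3 / 2)), lt_min (lt_min hε₁ (by norm_num)) hlog, ?_⟩
  intro k U z hk hU hz hper c hc h1 hSep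
  have hfix : ∀ c ∈ U, (fc n c)^[k] (z c) = z c := by
    intro c hc
    have h2 := Function.iterate_minimalPeriod (f := fc n c) (x := z c)
    rwa [hper c hc] at h2
  rcases le_total 3 ‖c‖ with h3 | h3
  · -- large parameters
    have h4 := hBIG n k c (z c) hn hk h3 (hfix c hc)
    have h5 : Real.log (3 / 2) ≤ Real.log ‖mlt n k c (z c)‖ := by
      apply Real.log_le_log (by norm_num)
      refine le_trans ?_ h4
      exact le_self_pow₀ (by norm_num) hk.ne'
    have h6 : 0 ≤ ‖deriv (fun c' => mlt n k c' (z c')) c / mlt n k c (z c)‖ := norm_nonneg _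
    have h7 : min (min ε₁ (1 / 12)) (Real.log (3 / 2)) ≤ Real.log (3 / 2) := min_le_right _ _
    linarith
  by_cases hk1 : k = 1
  · subst hk1
    have h4 := hK1 n U z hn hU hz (fun c hc => by simpa using hfix c hc) c hc h3 h1
    refine le_trans ((min_le_left _ _).trans (min_le_right _ _)) h4
  · have hk2 : 2 ≤ k := by omega
    have : NeZero k := ⟨hk.ne'⟩
    set b : ℂ → ZMod k → ℂ := fun c' i => (fc n c')^[i.val] (z c') with hb
    have hall : ∀ c' ∈ U, Function.Injective (b c') ∧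
        (∀ i, b c' i ^ n + c' = b c' (i + 1)) ∧ rho n (b c') = mlt n k c' (z c') ∧
        (mlt n k c' (z c') ≠ 0 → IsCyc n c' (b c')) := by
      intro c' hc'
      obtain ⟨b', hb1, hb2, hb3, hb4, hb5, hb6⟩ := hCYC n k c' (z c') hn (hper c' hc')
      have hbb : b' = b c' := by
        funext i
        have h4 := hb4 i.val
        rw [ZMod.natCast_zmod_val] at h4
        exact h4
      rw [← hbb]
      exact ⟨hb1, hb2, hb5, hb6⟩
    obtain ⟨_, _, hrho, hcyc'⟩ := hall c hc
    have hm0 : mlt n k c (z c) ≠ 0 := by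
      intro h4
      rw [h4, norm_zero] at h1
      linarith
    have hcyc : IsCyc n c (b c) := hcyc' hm0
    have hρ1 : rho n (b c) ≠ 1 := by
      intro h4
      rw [← hrho, h4, norm_one] at h1
      exact lt_irrefl _ h1
    obtain ⟨g, hg, -⟩ := hTG n k c (b c) hn hcyc hρ1
    have hder := hZL n k U b c g hn hU hc (fun i => FA_diff n U z hz i.val)
      (fun c' hc' => (hall c' hc').2.1) hcyc.ne0 hg
    have hev : (fun c' => rho n (b c')) =ᶠ[𝓝 c] fun c' => mlt n k c' (z c') := by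
      filter_upwards [hU.mem_nhds hc] with c' hc'
      exact (hall c' hc').2.2.1
    rw [hev.deriv_eq, hrho] at hder
    have h4 := hT k c (b c) g hk2 h3 hcyc (by rw [hrho]; exact h1)
      (by rw [hrho]; exact hSep) hg
    rw [hrho] at h4
    rw [hder]
    exact ((min_le_left _ _).trans (min_le_left _ _)).trans h4

theorem FB1 (hFA : FA1_stmt) (hZN : ZN_stmt) (hZC : ZC_stmt) (hZBC : ZBC_stmt) : FB1_stmt := by
  intro n hn d hd
  obtain ⟨ε', hε', hFA'⟩ := hFA n hn d hd
  refine ⟨ε' / 3, by positivity, ?_⟩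
  intro c r hr hr1 hdis k z hk hmin hsep
  have hrep := hZN n c r hn hdis
  obtain ⟨zf, hzf, hzc, hper⟩ := hZC n k c r hn hk hr (fun c' hc' z' hz' => hrep c' hc' k z' hk hz')
    z hmin
  have hgt : ∀ c' ∈ ball c r, 1 < ‖mlt n k c' (zf c')‖ := by
    intro c' hc'
    refine hrep c' hc' k (zf c') hk ?_
    have h1 := Function.iterate_minimalPeriod (f := fc n c') (x := zf c')
    rwa [hper c' hc'] at h1
  have hc : c ∈ ball c r := mem_ball_self hr
  have h1 := hFA' k (ball c r) zf hk isOpen_ball hzf hper c hc (hgt c hc) (by rwa [hzc])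
  have h2 := hZBC (fun c' => mlt n k c' (zf c')) c r hr (FB_mltDiff n k hzf) hgt
  simp only [hzc] at h1 h2
  have hL : 0 < Real.log ‖mlt n k c z‖ := by
    have := hgt c hc
    rw [hzc] at this
    exact Real.log_pos this
  have h3 : Real.log ‖mlt n k c z‖ ≤ Real.log ‖mlt n k c z‖ / r := by
    rw [le_div_iff₀ hr]
    nlinarith
  have h4 : ε' ≤ 3 * (Real.log ‖mlt n k c z‖ / r) := by
    have h5 : 2 * Real.log ‖mlt n k c z‖ / r = 2 * (Real.log ‖mlt n k c z‖ / r) := by ring
    rw [h5] at h2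
    linarith
  have h6 : ε' * r ≤ 3 * Real.log ‖mlt n k c z‖ := by
    have h7 := mul_le_mul_of_nonneg_right h4 hr.le
    have h8 : 3 * (Real.log ‖mlt n k c z‖ / r) * r = 3 * Real.log ‖mlt n k c z‖ := by
      field_simp
    linarith
  linarith

theorem FD1 (hB : FB1_stmt) : FD1_stmt := by
  intro n hn d hd
  obtain ⟨ε, hε, h⟩ := hB n hn d hd
  refine ⟨2 / ε + 1 / ε, ?_⟩
  intro c hc k z hk hz hm hs
  set l := Real.log ‖mlt n k c z‖ with hl
  have hl0 : 0 < l := Real.log_pos hm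
  have h2 : infDist c (hyperbolic n) ≤ 2 := by
    have := infDist_le_dist_of_mem (x := c) (FD_zero hn)
    rw [dist_zero_right] at this
    exact this.trans (FD_norm hn hc)
  rcases le_or_gt ε l with h3 | h3
  · have h4 : 2 ≤ 2 / ε * l := by
      rw [div_mul_eq_mul_div, le_div_iff₀ hε]
      nlinarith
    have h5 : 0 ≤ 1 / ε * l := by positivity
    calc infDist c (hyperbolic n) ≤ 2 := h2
      _ ≤ 2 / ε * l + 1 / ε * l := by linarith
      _ = _ := by ring
  · have h4 : infDist c (hyperbolic n) ≤ l / ε := by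
      apply le_of_forall_gt_imp_ge_of_dense
      intro r hr
      rcases le_or_gt r 1 with hr1 | hr1
      · have hr0 : 0 < r := lt_trans (by positivity) hr
        by_contra hcon
        push Not at hcon
        have hdis : Disjoint (ball c r) (hyperbolic n) := by
          rw [Set.disjoint_left]
          intro y hy hy'
          have h5 : infDist c (hyperbolic n) ≤ dist c y := infDist_le_dist_of_mem hy'
          rw [mem_ball, dist_comm] at hy
          linarith
        have h6 := h c r hr0 hr1 hdis k z hk hz hs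
        rw [div_lt_iff₀ hε] at hr
        rw [← hl] at h6
        linarith
      · -- r > 1 : use radius between l / ε and 1
        have h7 : l / ε < 1 := by rw [div_lt_one hε]; exact h3
        by_contra hcon
        push Not at hcon
        have hdis : Disjoint (ball c 1) (hyperbolic n) := by
          rw [Set.disjoint_left]
          intro y hy hy'
          have h5 : infDist c (hyperbolic n) ≤ dist c y := infDist_le_dist_of_mem hy'
          rw [mem_ball, dist_comm] at hy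
          linarith
        have h6 := h c 1 one_pos le_rfl hdis k z hk hz hs
        rw [← hl] at h6
        linarith
    have h8 : 0 ≤ 2 / ε * l := by positivity
    calc infDist c (hyperbolic n) ≤ l / ε := h4
      _ ≤ 2 / ε * l + 1 / ε * l := by
        have : 1 / ε * l = l / ε := by ring
        linarith
      _ = _ := by ring

theorem FC1 (hFB : FB1_stmt) : FC1_stmt := by
  intro n hn c ζ hζ hj hlim
  by_contra hc
  obtain ⟨r0, hr0, hball⟩ : ∃ r0 > (0 : ℝ), ball c r0 ⊆ (closure (hyperbolic n))ᶜ :=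
    Metric.isOpen_iff.mp isClosed_closure.isOpen_compl c hc
  set r : ℝ := min r0 1 with hr
  have hrpos : 0 < r := lt_min hr0 one_pos
  have hdis : Disjoint (ball c r) (hyperbolic n) := by
    rw [Set.disjoint_left]
    intro x hx hx2
    exact hball (ball_subset_ball (min_le_left _ _) hx) (subset_closure hx2)
  have hd0 : 0 < ‖ζ - 1‖ := norm_pos_iff.mpr (sub_ne_zero.mpr hj)
  set d : ℝ := ‖ζ - 1‖ / 2 with hd
  have hdpos : 0 < d := by positivity
  obtain ⟨ε, hε, hF⟩ := hFB n hn d hdpos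
  have hζ0 : ζ ≠ 0 := by
    intro h0
    rw [h0, norm_zero] at hζ
    exact zero_ne_one hζ
  have h1 : ∀ᶠ ρ in 𝓝 ζ, d ≤ ‖ρ / (‖ρ‖ : ℂ) - 1‖ := by
    have hcont : ContinuousAt (fun ρ : ℂ => ‖ρ / (‖ρ‖ : ℂ) - 1‖) ζ := by
      have : ContinuousAt (fun ρ : ℂ => ρ / (‖ρ‖ : ℂ)) ζ := by
        refine continuousAt_id.div (Complex.continuous_ofReal.comp continuous_norm).continuousAt ?_
        exact Complex.ofReal_ne_zero.mpr (norm_ne_zero_iff.mpr hζ0)
      exact (this.sub continuousAt_const).norm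
    have hval : d < ‖ζ / (‖ζ‖ : ℂ) - 1‖ := by
      rw [hζ, Complex.ofReal_one, div_one]
      linarith
    exact (hcont.eventually (lt_mem_nhds hval)).mono fun _ h => h.le
  have h2 : ∀ᶠ ρ in 𝓝 ζ, Real.log ‖ρ‖ < ε * r := by
    have hcont : ContinuousAt (fun ρ : ℂ => Real.log ‖ρ‖) ζ :=
      (Real.continuousAt_log (norm_ne_zero_iff.mpr hζ0)).comp continuous_norm.continuousAt
    have hval : Real.log ‖ζ‖ < ε * r := by
      rw [hζ, Real.log_one]
      positivity
    exact hcont.eventually (gt_mem_nhds hval)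
  obtain ⟨η, hη, hη2⟩ := Metric.eventually_nhds_iff.mp (h1.and h2)
  obtain ⟨k, z, hk, hz, hm⟩ := hlim η hη
  have h3 := hη2 (y := mlt n k c z) (by rw [dist_eq_norm]; exact hm)
  have h4 := hF c r hrpos (min_le_right _ _) hdis k z hk hz h3.1
  exact absurd h3.2 (not_lt.mpr h4)

end MQ
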