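import Pool.Agent.helper74.MQ.Spec

/-!
# Project mq: (MP_af9036_an): module MAINB
-/

set_option autoImplicit false

open Complex Metric Set Filter Topology MeasureTheory MPS

noncomputable section

namespace MQ

/-- translations by a full period. -/
theorem MAINB_per {N : ℕ} {f : ℤ → ℝ} {P : ℝ} (h : ∀ j, f (j + N) = f j + P) (j m : ℤ) :
    f (j + m * N) = f j + m * P := by
  induction m using Int.induction_on with
  | zero => simp
  | succ m ih =>
    have h1 := h (j + m * N)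
    have h2 : j + ((m : ℤ) + 1) * N = j + m * N + N := by ring
    rw [h2, h1, ih]
    push_cast
    ring
  | pred m ih =>
    have h1 := h (j + (-(m : ℤ) - 1) * N)
    have h2 : j + (-(m : ℤ) - 1) * N + N = j + -(m : ℤ) * N := by ring
    rw [h2, ih] at h1
    push_cast at h1 ⊢
    linarith

theorem MAINB_gap {f : ℤ → ℝ} {γ : ℝ} (h : ∀ j, f j + γ ≤ f (j + 1)) (j : ℤ) (m : ℕ) :
    f j + m * γ ≤ f (j + m) := by
  induction m with
  | zero => simp
  | succ m ih =>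
    have h1 := h (j + m)
    have h2 : j + ((m + 1 : ℕ) : ℤ) = j + m + 1 := by push_cast; ring
    rw [h2]
    push_cast
    linarith

/-- two different chosen directions in one turn are not congruent. -/
theorem MAINB_inj {k : ℕ} [NeZero k] {b g : ZMod k → ℂ} {ψ : ZMod k → ℂ → ℂ} {γ Λ : ℝ} {N : ℕ}
    {ce : ℤ → ℝ} {α : ZMod k → ℝ} {rep τ : ZMod k → ℤ → ℝ} (hγ : 0 < γ) (hΛ : 1000 ≤ Λ)
    (hW : Win b g ψ γ Λ N ce α) (hR : Reps b g ψ γ Λ N ce α rep τ) (i : ZMod k) (j j' M : ℤ)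
    (h1 : j < j') (h2 : j' < j + N) (h : rep i j' = rep i j + M * (2 * Real.pi)) : False := by
  have hb : γ / Λ ≤ γ / 1000 := div_le_div_of_nonneg_left hγ.le (by norm_num) hΛ
  have n1 := hR.near i j
  have n2 := hR.near i j'
  rw [abs_le] at n1 n2
  have g1 : ce j + γ ≤ ce j' := by
    obtain ⟨m, hm⟩ : ∃ m : ℕ, j' = j + ((m + 1 : ℕ) : ℤ) := by
      refine ⟨(j' - j - 1).toNat, ?_⟩
      push_cast
      rw [Int.toNat_of_nonneg (by omega)]
      ring
    have := MAINB_gap hW.gap j (m + 1)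
    rw [← hm] at this
    push_cast at this
    nlinarith [mul_nonneg (Nat.cast_nonneg (α := ℝ) m) hγ.le]
  have g2 : ce j' + γ ≤ ce j + 2 * Real.pi := by
    obtain ⟨m, hm⟩ : ∃ m : ℕ, j + N = j' + ((m + 1 : ℕ) : ℤ) := by
      refine ⟨(j + N - j' - 1).toNat, ?_⟩
      push_cast
      rw [Int.toNat_of_nonneg (by omega)]
      ring
    have := MAINB_gap hW.gap j' (m + 1)
    rw [← hm, hW.per] at this
    push_cast at this
    nlinarith [mul_nonneg (Nat.cast_nonneg (α := ℝ) m) hγ.le]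
  have hpi := Real.pi_pos
  have e1 : 0 < (M : ℝ) * (2 * Real.pi) := by linarith
  have e2 : (M : ℝ) * (2 * Real.pi) < 2 * Real.pi := by linarith
  have hM1 : (0 : ℝ) < M := by
    by_contra hc
    push Not at hc
    nlinarith
  have hM2 : (M : ℝ) < 1 := by
    by_contra hc
    push Not at hc
    nlinarith
  have a1 : (0 : ℤ) < M := by exact_mod_cast hM1
  have a2 : M < (1 : ℤ) := by exact_mod_cast hM2
  omega

theorem MAINB (hWIN : WIN_stmt) (hNOG : NOG_stmt) (hREP : REP_stmt) (hNM : NM_stmt)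
    (hHIT : HIT_stmt) (hLOCZ : LOCZ_stmt) (hHINJ : HINJ_stmt) (hHPER : HPER_stmt)
    (hCONF : CONF_stmt) (hSELF : SELF_stmt) (hCOMB : COMB_stmt) (hTP : TP_stmt)
    (hSYM : SYM_stmt) : MAINB_stmt := by
  intro n d₀ hn hd₀
  obtain ⟨Γ, hΓ, R₁, hR₁, ε₁, hε₁, hwin⟩ := hWIN n d₀ 1000 hn hd₀ le_rfl
  have hch : ∀ γ : Γ, ∃ R₀ : ℝ, 4 ≤ R₀ ∧
    ∃ ε₀ > (0 : ℝ), ∀ (k : ℕ) [NeZero k] (c : ℂ) (b g : ZMod k → ℂ) (ψ : ZMod k → ℂ → ℂ) (R ε : ℝ),
    SU n k c b g ψ R ε → Fam b g ψ → R₀ ≤ R → ε ≤ ε₀ → d₀ ≤ ‖rho n b / ‖rho n b‖ - 1‖ →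
    ∀ (i l : ZMod k) (S : ℂ) (y : ℝ), i ≠ l →
    S.re ≤ (γ / 8 : ℝ) / 10 ^ 6 → ¬ Strip b g (ψ i) (ψ l) S (y - γ / 8) (y + γ / 8) := by
    intro γ
    have h1 := hΓ γ γ.2
    exact hNOG n d₀ (γ / 8) hn hd₀ (by linarith [h1.1]) (by linarith [h1.2])
  choose R₀ hR₀ ε₀ hε₀ hnog using hch
  have hRs : 0 ≤ ∑ γ : Γ, R₀ γ := Finset.sum_nonneg fun γ _ => by linarith [hR₀ γ]
  have hεs : 0 ≤ ∑ γ : Γ, (ε₀ γ)⁻¹ := Finset.sum_nonneg fun γ _ => (inv_pos.2 (hε₀ γ)).le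
  have hε₁' : 0 < ε₁⁻¹ := inv_pos.2 hε₁
  set R : ℝ := R₁ + ∑ γ : Γ, R₀ γ with hR
  set ε : ℝ := (ε₁⁻¹ + ∑ γ : Γ, (ε₀ γ)⁻¹)⁻¹ with hε
  have hεpos : 0 < ε := inv_pos.2 (by linarith)
  refine ⟨R, by linarith, ε, hεpos, ?_⟩
  intro k _ c b g hk hc hcyc hrho hd hg hE
  have hεε₁ : ε ≤ ε₁ := by
    rw [hε]
    exact inv_le_of_inv_le₀ hε₁ (by linarith)
  have hRγ : ∀ γ : Γ, R₀ γ ≤ R := by
    intro γ
    have := Finset.single_le_sum (f := R₀) (fun γ _ => by linarith [hR₀ γ]) (Finset.mem_univ γ)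
    linarith
  have hεγ : ∀ γ : Γ, ε ≤ ε₀ γ := by
    intro γ
    have := Finset.single_le_sum (f := fun γ => (ε₀ γ)⁻¹) (fun γ _ => (inv_pos.2 (hε₀ γ)).le)
      (Finset.mem_univ γ)
    rw [hε]
    exact inv_le_of_inv_le₀ (hε₀ γ) (by linarith)
  have hψ := fun i : ZMod k => hNM k b g i hk hcyc.inj
  choose ψ hψm using hψ
  have su : SU n k c b g ψ R ε := ⟨hn, hk, hc, hcyc, hrho, hψm, by linarith, hE⟩
  have fam : Fam b g ψ := ⟨hk, hcyc.inj, hg, hψm⟩
  obtain ⟨γ, hγΓ, N, ce, α, hW⟩ := hwin k c b g ψ R ε su fam (by linarith) hεε₁ hd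
  obtain ⟨hγ, hγ1⟩ := hΓ γ hγΓ
  obtain ⟨rep, τ, hRep⟩ := hREP k b g ψ fam γ 1000 N ce α hγ hγ1 le_rfl hW
  have hN2 := hW.hN
  haveI : NeZero N := ⟨by omega⟩
  -- the zeros
  set P := Ppoly b g with hP
  have hP0 : P ≠ 0 := by
    intro h0
    have h1 := (hTP k b g hcyc.inj).2.1 0
    rw [← hP, h0] at h1
    simp at h1
  set m : ℂ → ℕ := fun ζ => P.rootMultiplicity ζ with hm
  have hz := fun (i : ZMod k) (j : ℤ) =>
    hHIT k b g i (ψ i) (rep i j) (τ i j) hcyc.inj hg (hψm i).pn (hRep.dep i j)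
  choose ze hze0 hze using hz
  have hl : ∀ ζ : ℂ, ∃ (h : ℂ → ℂ) (r s : ℝ), P.eval ζ = 0 → LocZ b g ζ (m ζ) h r s := by
    intro ζ
    by_cases h0 : P.eval ζ = 0
    · obtain ⟨h, r, s, hloc⟩ := hLOCZ k b g hcyc.inj hg ζ h0
      exact ⟨h, r, s, fun _ => hloc⟩
    · exact ⟨fun _ => 0, 0, 0, fun h => absurd h h0⟩
  choose h r s hloc using hl
  have ha : ∀ (i : ZMod k) (j : ℤ), ∃ a : ℕ, a < m (ze i j) + 2 ∧
      Hit b g (ψ i) (rep i j) (τ i j) (ze i j) (m (ze i j)) (h (ze i j)) (r (ze i j))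
        ((a : ℕ) : ZMod (m (ze i j) + 2)) := by
    intro i j
    obtain ⟨a, ha⟩ := hze i j _ _ _ (hloc _ (hze0 i j))
    refine ⟨a.val, ZMod.val_lt a, ?_⟩
    rw [ZMod.natCast_zmod_val]
    exact ha
  choose a ha1 ha2 using ha
  -- injectivity
  have hinj : ∀ (i l : ZMod k) (j j' : ℤ), ze i j = ze l j' → a i j = a l j' →
      i = l ∧ ∃ M : ℤ, rep l j' = rep i j + M * (2 * Real.pi) := by
    intro i l j j' h1 h2
    have h3 := ha2 l j'
    rw [← h1, ← h2] at h3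
    exact hHINJ k b g ψ fam i l _ _ _ _ _ _ _ _ _ _ (hloc _ (hze0 i j)) (ha2 i j) h3
  -- adjacency
  have hadj : ∀ (i l : ZMod k) (j j' : ℤ), ze i j = ze l j' →
      a l j' = (a i j + 1) % (m (ze i j) + 2) → i = l := by
    intro i l j j' h1 h2
    by_contra hil
    have h3 := ha2 l j'
    rw [← h1, h2, ZMod.natCast_mod, Nat.cast_add, Nat.cast_one] at h3
    obtain ⟨w₀, hw0, hst, hw1, -⟩ := hCONF k b g ψ fam γ 1000 N ce α rep τ hγ hγ1 le_rfl hW hRep
      i l j j' _ _ _ _ _ _ (hloc _ (hze0 i j)) (ha2 i j) h3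
    have n1 := hRep.near i j
    have g1 := hW.gap (j - 1)
    rw [sub_add_cancel] at g1
    rw [abs_le] at n1 hw1
    have hw2 : γ / 2 ≤ w₀ := by linarith
    have s1 := hRep.small i j
    have s2 := hRep.small l j'
    have hre : ((((τ i j + τ l j' : ℝ) : ℂ) + ((rep i j + rep l j' : ℝ) : ℂ) * I)).re ≤
        γ / 8 / 10 ^ 6 := by
      simp only [add_re, ofReal_re, mul_re, ofReal_im, I_re, I_im, mul_zero, zero_mul, sub_zero,
        add_zero]
      norm_num at s1 s2 ⊢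
      linarith
    refine hnog ⟨γ, hγΓ⟩ k c b g ψ R ε su fam (hRγ _) (hεγ _) hd i l _ (rep i j - w₀ / 2) hil hre ?_
    have h4 := (hSYM k b g i l (ψ i) (ψ l) (hψm i).pn (hψm l).pn _ _ _ hst).2.2.1
    exact h4 _ _ (by linarith) (by linarith)
  have hcomb := hCOMB k N P.roots.toFinset m (fun p => ze p.1 (p.2.val : ℤ))
    (fun p => a p.1 (p.2.val : ℤ)) hN2
    (fun z hz => by
      rw [Multiset.mem_toFinset, Polynomial.mem_roots hP0] at hz
      exact (Polynomial.rootMultiplicity_pos hP0).2 hz)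
    (fun p => by
      rw [Multiset.mem_toFinset, Polynomial.mem_roots hP0]
      exact hze0 _ _)
    (fun p => ha1 _ _)
    (fun p p' h1 h2 => by
      obtain ⟨i, j⟩ := p
      obtain ⟨l, j'⟩ := p'
      obtain ⟨e1, M, e2⟩ := hinj _ _ _ _ h1 h2
      simp only at e1 e2
      subst e1
      have v1 := ZMod.val_lt j
      have v2 := ZMod.val_lt j'
      rcases lt_trichotomy j.val j'.val with hlt | heq | hgt
      · exact (MAINB_inj hγ le_rfl hW hRep i (j.val : ℤ) (j'.val : ℤ) M (by omega) (by omega)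
          e2).elim
      · rw [ZMod.val_injective N heq]
      · refine (MAINB_inj hγ le_rfl hW hRep i (j'.val : ℤ) (j.val : ℤ) (-M) (by omega) (by omega)
          ?_).elim
        push_cast
        linarith)
    (fun p p' h1 h2 => hadj _ _ _ _ h1 h2)
    (fun i => by
      rintro ⟨h1, h2⟩
      simp only at h1 h2
      have hl1 := hloc _ (hze0 i ((0 : ZMod N).val : ℤ))
      rw [h2] at hl1
      refine hSELF k b g ψ fam γ 1000 N ce α rep τ hγ hγ1 le_rfl hW hRep i _ _ _ _ hl1 ?_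
      intro j
      have h3 := ha2 i (((j : ZMod N)).val : ℤ)
      rw [h1 (j : ZMod N), h2] at h3
      have hN0 : (N : ℤ) ≠ 0 := by omega
      have hj : j = (((j : ZMod N)).val : ℤ) + (j / N) * N := by
        rw [ZMod.val_intCast]
        have := Int.emod_add_mul_ediv j N
        linarith
      have e1 := MAINB_per (hRep.perr i) (((j : ZMod N)).val : ℤ) (j / N)
      have e2 := MAINB_per (P := 0) (f := τ i) (N := N) (fun j => by rw [hRep.pert]; simp)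
        (((j : ZMod N)).val : ℤ) (j / N)
      rw [← hj] at e1 e2
      rw [mul_zero, add_zero] at e2
      rw [e1, e2]
      exact ⟨_, hHPER k b g (ψ i) _ _ _ _ _ _ _ _ h3⟩)
  have hsum : ∑ z ∈ P.roots.toFinset, m z ≤ P.natDegree := by
    have h1 : ∑ z ∈ P.roots.toFinset, m z = P.roots.card := by
      rw [← Multiset.toFinset_sum_count_eq]
      exact Finset.sum_congr rfl fun z _ => (Polynomial.count_roots P).symm
    rw [h1]
    exact Polynomial.card_roots' P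
  have hdeg : P.natDegree = 2 * k - 1 := ((hTP k b g hcyc.inj).2.2 hg).1
  omega

end MQ
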