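import Pool.Agent.helper74.MQ.Spec
import Pool.Agent.helper97.MQ.SYM
import Pool.Agent.helper92.MQ.ADJ
import Pool.Agent.helper70.MQ.DPR

/-!
# Project mq: (MP_af9036_an): module STR
-/

set_option autoImplicit false

open Complex Metric Set Filter Topology MeasureTheory MPS

noncomputable section

namespace MQ

section
variable {k : ℕ} [NeZero k]

theorem STR_preconn {s : Set ℂ} (h : Convex ℝ s) : IsPreconnected s := h.isPreconnected

/-- horizontal bands -/
theorem STR_band_open (a c : ℝ) : IsOpen {w : ℂ | a < w.im ∧ w.im < c} := SYM_open a c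

theorem STR_band_conv (a c : ℝ) : Convex ℝ {w : ℂ | a < w.im ∧ w.im < c} := by
  have h1 : Convex ℝ {w : ℂ | a < w.im} := convex_halfSpace_gt Complex.imLm.isLinear a
  have h2 : Convex ℝ {w : ℂ | w.im < c} := convex_halfSpace_lt Complex.imLm.isLinear c
  exact h1.inter h2

/-- two maps of strips with the same left end agree -/
theorem STR_agree {b g : ZMod k → ℂ} {ψ : ℂ → ℂ} {χ₁ χ₂ : ℂ → ℂ} {a c : ℝ}
    (h1 : DifferentiableOn ℂ χ₁ {w | a < w.im ∧ w.im < c})
    (h2 : DifferentiableOn ℂ χ₂ {w | a < w.im ∧ w.im < c})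
    (l1 : ∀ w : ℂ, a < w.im → w.im < c → w.re < 0 → χ₁ w = hat ψ w)
    (l2 : ∀ w : ℂ, a < w.im → w.im < c → w.re < 0 → χ₂ w = hat ψ w) :
    EqOn χ₁ χ₂ {w | a < w.im ∧ w.im < c} := by
  intro w hw
  have hw' : a < w.im ∧ w.im < c := hw
  have hac : a < c := hw'.1.trans hw'.2
  set z₀ : ℂ := (-1 : ℝ) + ((a + c) / 2 : ℝ) * I with hz₀
  have hre : z₀.re = -1 := by simp [hz₀]
  have him : z₀.im = (a + c) / 2 := by simp [hz₀]
  have hz : z₀ ∈ {w : ℂ | a < w.im ∧ w.im < c} := by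
    show a < z₀.im ∧ z₀.im < c
    rw [him]
    constructor <;> linarith
  refine ADJ_id1 (STR_band_open a c) (STR_band_conv a c).isPreconnected h1 h2 hz ?_ hw
  have hopen : IsOpen ({w : ℂ | a < w.im ∧ w.im < c} ∩ {w : ℂ | w.re < 0}) :=
    (STR_band_open a c).inter (isOpen_lt Complex.continuous_re continuous_const)
  filter_upwards [hopen.mem_nhds ⟨hz, by show z₀.re < 0; rw [hre]; norm_num⟩] with v hv
  rw [l1 v hv.1.1 hv.1.2 hv.2, l2 v hv.1.1 hv.1.2 hv.2]

/-- the union of strips with a common upper side -/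
theorem STR_union {b g : ZMod k → ℂ} {ψ ψ' : ℂ → ℂ} {S : ℂ} {y w₀ : ℝ}
    (h : ∀ w < w₀, ∃ w', w < w' ∧ Strip b g ψ ψ' S (y - w') y) :
    Strip b g ψ ψ' S (y - w₀) y := by
  have hch : ∀ v : ℂ, y - w₀ < v.im → ∃ (w' : ℝ) (χ : ℂ → ℂ), y - w' < v.im ∧
      IsStrip b g ψ ψ' S (y - w') y χ := by
    intro v hv
    obtain ⟨w', hw', χ, hχ⟩ := h (y - v.im) (by linarith)
    exact ⟨w', χ, by linarith, hχ⟩
  have hch' : ∀ v : ℂ, ∃ (w' : ℝ) (χ : ℂ → ℂ), y - w₀ < v.im → (y - w' < v.im ∧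
      IsStrip b g ψ ψ' S (y - w') y χ) := by
    intro v
    by_cases hv : y - w₀ < v.im
    · obtain ⟨w', χ, h1, h2⟩ := hch v hv
      exact ⟨w', χ, fun _ => ⟨h1, h2⟩⟩
    · exact ⟨0, fun _ => 0, fun h => absurd h hv⟩
  choose W X hWX using hch'
  have hag : ∀ v v' : ℂ, y - w₀ < v.im → v.im < y → y - w₀ < v'.im → v'.im < y →
      y - W v < v'.im → X v' v' = X v v' := by
    intro v v' h1 h2 h3 h4 h5
    obtain ⟨p1, q1⟩ := hWX v h1
    obtain ⟨p2, q2⟩ := hWX v' h3
    have hm : DifferentiableOn ℂ (X v) {w | max (y - W v) (y - W v') < w.im ∧ w.im < y} :=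
      q1.nat.diff.mono fun w hw => ⟨lt_of_le_of_lt (le_max_left _ _) hw.1, hw.2⟩
    have hm' : DifferentiableOn ℂ (X v') {w | max (y - W v) (y - W v') < w.im ∧ w.im < y} :=
      q2.nat.diff.mono fun w hw => ⟨lt_of_le_of_lt (le_max_right _ _) hw.1, hw.2⟩
    refine STR_agree (b := b) (g := g) (ψ := ψ) hm' hm ?_ ?_ ⟨max_lt h5 p2, h4⟩
    · intro w hw1 hw2 hw3
      exact q2.left w (lt_of_le_of_lt (le_max_right _ _) hw1) hw2 hw3
    · intro w hw1 hw2 hw3
      exact q1.left w (lt_of_le_of_lt (le_max_left _ _) hw1) hw2 hw3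
  refine ⟨fun v => X v v, ?_, ?_, ?_⟩
  · refine NOSL_local ?_
    intro v hv
    obtain ⟨hv1, hv2⟩ := hv
    obtain ⟨p1, q1⟩ := hWX v hv1
    refine ⟨X v, {w | y - W v < w.im ∧ w.im < y}, STR_band_open _ _, ⟨p1, hv2⟩, q1.nat, ?_⟩
    have hmem : {w : ℂ | max (y - W v) (y - w₀) < w.im ∧ w.im < y} ∈ 𝓝 v :=
      (STR_band_open _ _).mem_nhds ⟨max_lt p1 hv1, hv2⟩
    filter_upwards [hmem] with v' hv'
    exact hag v v' hv1 hv2 (lt_of_le_of_lt (le_max_right _ _) hv'.1) hv'.2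
      (lt_of_le_of_lt (le_max_left _ _) hv'.1)
  · intro v h1 h2 h3
    obtain ⟨p1, q1⟩ := hWX v h1
    exact q1.left v p1 h2 h3
  · intro v h1 h2 h3
    obtain ⟨p1, q1⟩ := hWX v h1
    exact q1.right v p1 h2 h3

/-- extension of a strip across its lower side -/
theorem STR_ext {b g : ZMod k → ℂ} {ψ ψ' : ℂ → ℂ} {S : ℂ} {a y e₁ t₁ e₂ t₂ : ℝ}
    {χ₀ χ₁ χ₂ : ℂ → ℂ} (hay : a < y) (he₁ : 0 < e₁) (he₂ : 0 < e₂)
    (h0 : IsStrip b g ψ ψ' S a y χ₀)
    (h1 : IsNat b g χ₁ (HP 0 ∪ {w | |w.im - a| < e₁ ∧ w.re < t₁ + e₁})) (c1 : EqOn χ₁ (hat ψ) (HP 0))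
    (h2 : IsNat b g χ₂ (HP 0 ∪ {w | |w.im - (S.im - a)| < e₂ ∧ w.re < t₂ + e₂}))
    (c2 : EqOn χ₂ (hat ψ') (HP 0)) (ht : S.re < t₁ + t₂) :
    ∃ e > (0 : ℝ), Strip b g ψ ψ' S (a - e) y := by
  set e := min (min e₁ e₂) (y - a) with he
  have hepos : 0 < e := lt_min (lt_min he₁ he₂) (by linarith)
  have hee1 : e ≤ e₁ := (min_le_left _ _).trans (min_le_left _ _)
  have hee2 : e ≤ e₂ := (min_le_left _ _).trans (min_le_right _ _)
  have heya : e ≤ y - a := min_le_right _ _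
  set p := max 0 (t₁ + e) with hp
  set q := S.re - max 0 (t₂ + e) with hq
  have hqp : q < p := by
    have p1 := le_max_right 0 (t₁ + e)
    have p2 := le_max_right 0 (t₂ + e)
    linarith
  have hp0 : 0 ≤ p := le_max_left _ _
  have hq0 : q ≤ S.re := by
    have := le_max_left 0 (t₂ + e)
    linarith
  set m := (p + q) / 2 with hm
  -- χ₁ on the band for Re < p
  have d1 : ∀ w : ℂ, |w.im - a| < e → w.re < p →
      w ∈ HP 0 ∪ {w : ℂ | |w.im - a| < e₁ ∧ w.re < t₁ + e₁} := by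
    intro w hw1 hw2
    rcases lt_max_iff.1 hw2 with h | h
    · exact Or.inl (SYM_HP.2 h)
    · exact Or.inr ⟨hw1.trans_le hee1, by linarith⟩
  have d2 : ∀ w : ℂ, |w.im - a| < e → q < w.re →
      S - w ∈ HP 0 ∪ {w : ℂ | |w.im - (S.im - a)| < e₂ ∧ w.re < t₂ + e₂} := by
    intro w hw1 hw2
    have e1 : (S - w).im = S.im - w.im := by simp
    have e2 : (S - w).re = S.re - w.re := by simp
    have h3 : S.re - w.re < max 0 (t₂ + e) := by linarith
    rcases lt_max_iff.1 h3 with h | h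
    · exact Or.inl (SYM_HP.2 (by rw [e2]; exact h))
    · refine Or.inr ⟨?_, ?_⟩
      · rw [e1]
        have : S.im - w.im - (S.im - a) = -(w.im - a) := by ring
        rw [this, abs_neg]
        exact hw1.trans_le hee2
      · rw [e2]
        linarith
  have oband : IsOpen {w : ℂ | |w.im - a| < e} :=
    isOpen_lt ((Complex.continuous_im.sub continuous_const).abs) continuous_const
  have cband : Convex ℝ {w : ℂ | |w.im - a| < e} := by
    have : {w : ℂ | |w.im - a| < e} = {w : ℂ | a - e < w.im ∧ w.im < a + e} := by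
      ext w
      simp only [mem_setOf_eq, abs_lt]
      constructor <;> rintro ⟨u1, u2⟩ <;> constructor <;> linarith
    rw [this]
    exact STR_band_conv _ _
  have oltp : ∀ t : ℝ, IsOpen {w : ℂ | w.re < t} := fun t =>
    isOpen_lt Complex.continuous_re continuous_const
  have ogtq : ∀ t : ℝ, IsOpen {w : ℂ | t < w.re} := fun t =>
    isOpen_lt continuous_const Complex.continuous_re
  have cltp : ∀ t : ℝ, Convex ℝ {w : ℂ | w.re < t} := fun t =>
    convex_halfSpace_lt Complex.reLm.isLinear t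
  have cgtq : ∀ t : ℝ, Convex ℝ {w : ℂ | t < w.re} := fun t =>
    convex_halfSpace_gt Complex.reLm.isLinear t
  have oup : IsOpen {w : ℂ | a < w.im} := isOpen_lt continuous_const Complex.continuous_im
  have cup : Convex ℝ {w : ℂ | a < w.im} := convex_halfSpace_gt Complex.imLm.isLinear a
  have n1 : IsNat b g χ₁ ({w : ℂ | |w.im - a| < e} ∩ {w : ℂ | w.re < p}) :=
    NOSL_mono h1 fun w hw => d1 w hw.1 hw.2
  have n2 : IsNat b g (fun w => χ₂ (S - w)) ({w : ℂ | |w.im - a| < e} ∩ {w : ℂ | q < w.re}) :=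
    NOSL_mono (SYM_refl h2 S) fun w hw => d2 w hw.1 hw.2
  -- agreement with χ₀ above the line
  have g1 : EqOn χ₁ χ₀ (({w : ℂ | |w.im - a| < e} ∩ {w : ℂ | w.re < p}) ∩ {w : ℂ | a < w.im}) := by
    have hU : IsOpen (({w : ℂ | |w.im - a| < e} ∩ {w : ℂ | w.re < p}) ∩ {w : ℂ | a < w.im}) :=
      (oband.inter (oltp p)).inter oup
    set z₀ : ℂ := (-1 : ℝ) + (a + e / 2 : ℝ) * I with hz₀
    have hre : z₀.re = -1 := by simp [hz₀]
    have him : z₀.im = a + e / 2 := by simp [hz₀]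
    have hz : z₀ ∈ ({w : ℂ | |w.im - a| < e} ∩ {w : ℂ | w.re < p}) ∩ {w : ℂ | a < w.im} := by
      refine ⟨⟨?_, ?_⟩, ?_⟩
      · show |z₀.im - a| < e
        rw [him, add_sub_cancel_left, abs_of_pos (by positivity)]
        linarith
      · show z₀.re < p
        rw [hre]
        linarith
      · show a < z₀.im
        rw [him]
        linarith
    refine ADJ_id1 hU (((cband.inter (cltp p)).inter cup).isPreconnected)
      (n1.diff.mono inter_subset_left) (h0.nat.diff.mono ?_) hz ?_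
    · intro w hw
      have h3 : |w.im - a| < e := hw.1.1
      rw [abs_lt] at h3
      exact ⟨hw.2, by linarith [h3.2]⟩
    · filter_upwards [(hU.inter (oltp 0)).mem_nhds ⟨hz, by show z₀.re < 0; rw [hre]; norm_num⟩]
        with v hv
      have h3 : |v.im - a| < e := hv.1.1.1
      rw [abs_lt] at h3
      rw [c1 (SYM_HP.2 hv.2), h0.left v hv.1.2 (by linarith [h3.2]) hv.2]
  have g2 : EqOn (fun w => χ₂ (S - w)) χ₀
      (({w : ℂ | |w.im - a| < e} ∩ {w : ℂ | q < w.re}) ∩ {w : ℂ | a < w.im}) := by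
    have hU : IsOpen (({w : ℂ | |w.im - a| < e} ∩ {w : ℂ | q < w.re}) ∩ {w : ℂ | a < w.im}) :=
      (oband.inter (ogtq q)).inter oup
    set z₀ : ℂ := (S.re + 1 : ℝ) + (a + e / 2 : ℝ) * I with hz₀
    have hre : z₀.re = S.re + 1 := by simp [hz₀]
    have him : z₀.im = a + e / 2 := by simp [hz₀]
    have hz : z₀ ∈ ({w : ℂ | |w.im - a| < e} ∩ {w : ℂ | q < w.re}) ∩ {w : ℂ | a < w.im} := by
      refine ⟨⟨?_, ?_⟩, ?_⟩
      · show |z₀.im - a| < e
        rw [him, add_sub_cancel_left, abs_of_pos (by positivity)]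
        linarith
      · show q < z₀.re
        rw [hre]
        linarith
      · show a < z₀.im
        rw [him]
        linarith
    refine ADJ_id1 hU (((cband.inter (cgtq q)).inter cup).isPreconnected)
      (n2.diff.mono inter_subset_left) (h0.nat.diff.mono ?_) hz ?_
    · intro w hw
      have h3 : |w.im - a| < e := hw.1.1
      rw [abs_lt] at h3
      exact ⟨hw.2, by linarith [h3.2]⟩
    · filter_upwards [(hU.inter (ogtq S.re)).mem_nhds
        ⟨hz, by show S.re < z₀.re; rw [hre]; linarith⟩] with v hv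
      have h3 : |v.im - a| < e := hv.1.1.1
      rw [abs_lt] at h3
      have hvre : S.re < v.re := hv.2
      have e2 : (S - v).re < 0 := by
        simp only [sub_re]
        linarith
      rw [h0.right v hv.1.2 (by linarith [h3.2]) hvre]
      exact c2 (SYM_HP.2 e2)
  -- agreement on the overlap
  have g3 : EqOn χ₁ (fun w => χ₂ (S - w))
      ({w : ℂ | |w.im - a| < e} ∩ ({w : ℂ | w.re < p} ∩ {w : ℂ | q < w.re})) := by
    have hU : IsOpen ({w : ℂ | |w.im - a| < e} ∩ ({w : ℂ | w.re < p} ∩ {w : ℂ | q < w.re})) :=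
      oband.inter ((oltp p).inter (ogtq q))
    set z₀ : ℂ := (m : ℝ) + (a + e / 2 : ℝ) * I with hz₀
    have hre : z₀.re = m := by simp [hz₀]
    have him : z₀.im = a + e / 2 := by simp [hz₀]
    have hz1 : |z₀.im - a| < e := by
      rw [him, add_sub_cancel_left, abs_of_pos (by positivity)]
      linarith
    have hz2 : z₀.re < p := by rw [hre]; linarith
    have hz3 : q < z₀.re := by rw [hre]; linarith
    have hz4 : a < z₀.im := by rw [him]; linarith
    refine ADJ_id1 hU ((cband.inter ((cltp p).inter (cgtq q))).isPreconnected)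
      (n1.diff.mono fun w hw => ⟨hw.1, hw.2.1⟩) (n2.diff.mono fun w hw => ⟨hw.1, hw.2.2⟩)
      ⟨hz1, hz2, hz3⟩ ?_
    filter_upwards [(hU.inter oup).mem_nhds ⟨⟨hz1, hz2, hz3⟩, hz4⟩] with v hv
    exact (g1 ⟨⟨hv.1.1, hv.1.2.1⟩, hv.2⟩).trans (g2 ⟨⟨hv.1.1, hv.1.2.2⟩, hv.2⟩).symm
  -- the new map
  set X : ℂ → ℂ := fun w => if a < w.im then χ₀ w else if w.re < m then χ₁ w else χ₂ (S - w) with hX
  have hmp : m < p := by rw [hm]; linarith
  have hqm : q < m := by rw [hm]; linarith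
  -- in the band, X = χ₁ for Re < p and X = χ₂ (S - ·) for q < Re
  have X1 : ∀ w : ℂ, |w.im - a| < e → w.re < p → X w = χ₁ w := by
    intro w hw1 hw2
    simp only [hX]
    by_cases hu : a < w.im
    · rw [if_pos hu]
      exact (g1 ⟨⟨hw1, hw2⟩, hu⟩).symm
    · rw [if_neg hu]
      by_cases hr : w.re < m
      · rw [if_pos hr]
      · rw [if_neg hr]
        exact (g3 ⟨hw1, hw2, by show q < w.re; linarith [not_lt.1 hr]⟩).symm
  have X2 : ∀ w : ℂ, |w.im - a| < e → q < w.re → X w = χ₂ (S - w) := by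
    intro w hw1 hw2
    simp only [hX]
    by_cases hu : a < w.im
    · rw [if_pos hu]
      exact (g2 ⟨⟨hw1, hw2⟩, hu⟩).symm
    · rw [if_neg hu]
      by_cases hr : w.re < m
      · rw [if_pos hr]
        exact g3 ⟨hw1, by show w.re < p; linarith, hw2⟩
      · rw [if_neg hr]
  refine ⟨e, hepos, X, ?_, ?_, ?_⟩
  · refine NOSL_local ?_
    intro w hw
    obtain ⟨hw1, hw2⟩ := hw
    by_cases hu : a < w.im
    · refine ⟨χ₀, {w | a < w.im ∧ w.im < y}, STR_band_open _ _, ⟨hu, hw2⟩, h0.nat, ?_⟩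
      filter_upwards [oup.mem_nhds hu] with v hv
      simp only [hX]
      rw [if_pos hv]
    · have hband : |w.im - a| < e := by
        rw [abs_lt]
        constructor <;> linarith [not_lt.1 hu]
      by_cases hr : w.re < p
      · refine ⟨χ₁, _, oband.inter (oltp p), ⟨hband, hr⟩, n1, ?_⟩
        filter_upwards [(oband.inter (oltp p)).mem_nhds ⟨hband, hr⟩] with v hv
        exact X1 v hv.1 hv.2
      · have hr' : q < w.re := by linarith [not_lt.1 hr]
        refine ⟨fun w => χ₂ (S - w), _, oband.inter (ogtq q), ⟨hband, hr'⟩, n2, ?_⟩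
        filter_upwards [(oband.inter (ogtq q)).mem_nhds ⟨hband, hr'⟩] with v hv
        exact X2 v hv.1 hv.2
  · intro w hw1 hw2 hw3
    by_cases hu : a < w.im
    · simp only [hX]
      rw [if_pos hu]
      exact h0.left w hu hw2 hw3
    · have hband : |w.im - a| < e := by
        rw [abs_lt]
        constructor <;> linarith [not_lt.1 hu]
      rw [X1 w hband (by linarith)]
      exact c1 (SYM_HP.2 hw3)
  · intro w hw1 hw2 hw3
    by_cases hu : a < w.im
    · simp only [hX]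
      rw [if_pos hu]
      exact h0.right w hu hw2 hw3
    · have hband : |w.im - a| < e := by
        rw [abs_lt]
        constructor <;> linarith [not_lt.1 hu]
      rw [X2 w hband (by linarith)]
      refine c2 (SYM_HP.2 ?_)
      simp only [sub_re]
      linarith

end

/-- STR: the maximal strip below `y`. -/
theorem STR (hSYM : SYM_stmt) (hDPR : DPR_stmt) : STR_stmt := by
  intro k _ b g ψ hF i l S y e T he hS hT
  have hpi := Real.pi_pos
  have hbd : ∀ w : ℝ, Strip b g (ψ i) (ψ l) S (y - w) y → w ≤ 2 * Real.pi := by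
    intro w hw
    by_contra hcon
    push Not at hcon
    have h1 := (hSYM k b g i l (ψ i) (ψ l) (hF.mx i).pn (hF.mx l).pn S _ _ hw).2.2.2.1
      (y - 2 * Real.pi) T (by linarith) (by linarith)
    have h2 := (hDPR k b g ψ hF i).2.2.2.1 y T (-1) hT
    have h3 : y + ((-1 : ℤ) : ℝ) * (2 * Real.pi) = y - 2 * Real.pi := by push_cast; ring
    rw [h3] at h2
    exact h1 h2.1
  set A : Set ℝ := {w | Strip b g (ψ i) (ψ l) S (y - w) y} with hA
  have hAne : A.Nonempty := ⟨e, hS⟩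
  have hAbd : BddAbove A := ⟨2 * Real.pi, fun w hw => hbd w hw⟩
  set w₀ := sSup A with hw₀
  have hew : e ≤ w₀ := le_csSup hAbd hS
  have hStrip : Strip b g (ψ i) (ψ l) S (y - w₀) y := by
    refine STR_union ?_
    intro w hw
    obtain ⟨w', hw', hlt⟩ := exists_lt_of_lt_csSup hAne hw
    exact ⟨w', hlt, hw'⟩
  -- the key inequality
  have key : ∀ t₁ t₂ : ℝ, ¬ Slit b g (ψ i) t₁ (y - w₀) → ¬ Slit b g (ψ l) t₂ (S.im - y + w₀) →
      t₁ + t₂ ≤ S.re := by
    intro t₁ t₂ h1 h2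
    by_contra hcon
    push Not at hcon
    unfold Slit at h1 h2
    rw [not_not] at h1 h2
    obtain ⟨e₁, he₁, χ₁, hn₁, hc₁⟩ := h1
    obtain ⟨e₂, he₂, χ₂, hn₂, hc₂⟩ := h2
    obtain ⟨χ₀, h0⟩ := hStrip
    have hS2 : S.im - y + w₀ = S.im - (y - w₀) := by ring
    rw [hS2] at hn₂
    obtain ⟨e', he', hst⟩ := STR_ext (by linarith) he₁ he₂ h0 hn₁ hc₁ hn₂ hc₂ hcon
    have h3 : y - w₀ - e' = y - (w₀ + e') := by ring
    rw [h3] at hst
    have := le_csSup hAbd (show w₀ + e' ∈ A from hst)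
    linarith
  have hneg1 : ∀ t < 0, ¬ Slit b g (ψ i) t (y - w₀) := fun t ht => DPR_neg (hF.mx i).pn ht
  have hneg2 : ∀ t < 0, ¬ Slit b g (ψ l) t (S.im - y + w₀) := fun t ht => DPR_neg (hF.mx l).pn ht
  have hs1 : Slit b g (ψ i) (S.re + 2) (y - w₀) := by
    by_contra h
    have := key (S.re + 2) (-1) h (hneg2 (-1) (by norm_num))
    linarith
  have hs2 : Slit b g (ψ l) (S.re + 2) (S.im - y + w₀) := by
    by_contra h
    have := key (-1) (S.re + 2) (hneg1 (-1) (by norm_num)) h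
    linarith
  obtain ⟨ta, -, hta⟩ := (hDPR k b g ψ hF i).1 _ _ hs1
  obtain ⟨tb, -, htb⟩ := (hDPR k b g ψ hF l).1 _ _ hs2
  refine ⟨w₀, ta, tb, hew, hStrip, hta, htb, ?_⟩
  by_contra hcon
  push Not at hcon
  have h4 := key (ta - (ta + tb - S.re) / 4) (tb - (ta + tb - S.re) / 4)
    (hta.2 _ (by linarith)) (htb.2 _ (by linarith))
  linarith

end MQ
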