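import Pool.Agent.helper74.MQ.Spec

/-!
# Project mq: (MP_af9036_an): module WIN
-/

set_option autoImplicit false

open Complex Metric Set Filter Topology MeasureTheory MPS

noncomputable section

namespace MQ

theorem WIN_mono {f : ℤ → ℝ} {γ : ℝ} (hγ : 0 < γ) (h : ∀ j, f j + γ ≤ f (j + 1)) (j : ℤ) (m : ℕ) :
    f j + γ ≤ f (j + (m + 1 : ℕ)) := by
  induction m with
  | zero => simpa using h j
  | succ m ih =>
    have h1 := h (j + (m + 1 : ℕ))
    have h2 : j + ((m + 1 + 1 : ℕ) : ℤ) = j + (m + 1 : ℕ) + 1 := by push_cast; ring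
    rw [h2]
    linarith

theorem WIN_eq {f : ℤ → ℝ} {γ : ℝ} (hγ : 0 < γ) (h : ∀ j, f j + γ ≤ f (j + 1)) {i j : ℤ}
    (hij : |f i - f j| < γ) : i = j := by
  rw [abs_lt] at hij
  rcases lt_trichotomy i j with h1 | h1 | h1
  · exfalso
    have h2 := WIN_mono hγ h i (j - i - 1).toNat
    have h3 : i + (((j - i - 1).toNat + 1 : ℕ) : ℤ) = j := by
      push_cast
      rw [Int.toNat_of_nonneg (by omega)]
      ring
    rw [h3] at h2
    linarith
  · exact h1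
  · exfalso
    have h2 := WIN_mono hγ h j (i - j - 1).toNat
    have h3 : j + (((i - j - 1).toNat + 1 : ℕ) : ℤ) = i := by
      push_cast
      rw [Int.toNat_of_nonneg (by omega)]
      ring
    rw [h3] at h2
    linarith

/-- the argument of a product, modulo `2π`. -/
theorem WIN_arg {z w : ℂ} (hz : z ≠ 0) (hw : w ≠ 0) :
    ∃ m : ℤ, z.arg + w.arg = (z * w).arg + m * (2 * Real.pi) := by
  have h1 : Complex.exp (((z.arg + w.arg : ℝ) : ℂ) * I) = Complex.exp (((z * w).arg : ℂ) * I) := by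
    have e1 := Complex.norm_mul_exp_arg_mul_I z
    have e2 := Complex.norm_mul_exp_arg_mul_I w
    have e3 := Complex.norm_mul_exp_arg_mul_I (z * w)
    have n1 : ((‖z‖ : ℝ) : ℂ) ≠ 0 := Complex.ofReal_ne_zero.2 (norm_ne_zero_iff.2 hz)
    have n2 : ((‖w‖ : ℝ) : ℂ) ≠ 0 := Complex.ofReal_ne_zero.2 (norm_ne_zero_iff.2 hw)
    have e4 : ((‖z‖ : ℝ) : ℂ) * (‖w‖ : ℝ) * Complex.exp (((z.arg + w.arg : ℝ) : ℂ) * I) =
        ((‖z‖ : ℝ) : ℂ) * (‖w‖ : ℝ) * Complex.exp (((z * w).arg : ℂ) * I) := by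
      rw [norm_mul, Complex.ofReal_mul] at e3
      rw [e3, Complex.ofReal_add, add_mul, Complex.exp_add]
      calc (‖z‖ : ℂ) * ‖w‖ * (Complex.exp (z.arg * I) * Complex.exp (w.arg * I))
          = (‖z‖ * Complex.exp (z.arg * I)) * (‖w‖ * Complex.exp (w.arg * I)) := by ring
        _ = z * w := by rw [e1, e2]
    exact mul_left_cancel₀ (mul_ne_zero n1 n2) e4
  obtain ⟨m, hm⟩ := Complex.exp_eq_exp_iff_exists_int.1 h1
  refine ⟨m, ?_⟩
  have h2 : (((z.arg + w.arg : ℝ) : ℂ) * I) = (((z * w).arg + m * (2 * Real.pi) : ℝ) : ℂ) * I := by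
    rw [hm]
    push_cast
    ring
  exact_mod_cast mul_right_cancel₀ I_ne_zero h2

/-- core of the construction for a fixed flat structure. -/
theorem WIN_core (hDPR : DPR_stmt) (hNOSL : NOSL_stmt) (hWR : WR_stmt) (hCOC : COC_stmt)
    (n k : ℕ) [NeZero k] (b g : ZMod k → ℂ) (ψ : ZMod k → ℂ → ℂ) (hn : 2 ≤ n) (fam : Fam b g ψ)
    (hb : ∀ i, b i ≠ 0) (hρ : rho n b ≠ 0) (γ Λ d : ℝ) (hγ : 0 < γ) (hγ1 : γ ≤ 1) (hΛ : 1000 ≤ Λ)
    (hd : d = γ / (256 * Λ ^ 3))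
    (hA : ∀ (i : ZMod k) (q : ℕ) (y : ℝ), q ≤ k → Flat b g (ψ i) y (γ / (2 * Λ)) →
      Flat b g (ψ (i - (q : ZMod k))) (y + (Kq n b ψ i q).arg) (γ / (2 * Λ) / 64))
    (hB : ∀ (i : ZMod k) (q : ℕ) (y : ℝ), q ≤ k → Flat b g (ψ i) y (128 * d) →
      Flat b g (ψ (i - (q : ZMod k))) (y + (Kq n b ψ i q).arg) (128 * d / 64))
    (hsep : γ < ‖rho n b / ‖rho n b‖ - 1‖)
    (i₀ : ZMod k) (N : ℕ) (ce : ℤ → ℝ) (hN : 1 ≤ N) (hper : ∀ j, ce (j + N) = ce j + 2 * Real.pi)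
    (hgap : ∀ j, ce j + γ < ce (j + 1))
    (hdg : ∀ y T, Dep b g (ψ i₀) y T → T ≤ d ∨ γ < T)
    (hact : ∀ j, ∃ T, Dep b g (ψ i₀) (ce j) T ∧ T ≤ d)
    (hcov : ∀ y T, Dep b g (ψ i₀) y T → T ≤ d → ∃ j, |y - ce j| ≤ d) :
    ∃ α : ZMod k → ℝ, Win b g ψ γ Λ N ce α := by
  have hΛ0 : 0 < Λ := by linarith
  have hpn : ∀ i, PN b g i (ψ i) 1 := fun i => (fam.mx i).pn
  have hcoc := hCOC n k b ψ hn hb (fun i => (hpn i).der)
  have hd0 : 0 < d := by rw [hd]; positivity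
  -- comparison of the scales
  have hgL : 0 < γ / Λ := div_pos hγ hΛ0
  have hgL1 : γ / Λ ≤ γ / 1000 := div_le_div_of_nonneg_left hγ.le (by norm_num) hΛ
  have hgL2 : γ / Λ ^ 2 ≤ γ / Λ / 1000 := by
    rw [div_div, sq]
    exact div_le_div_of_nonneg_left hγ.le (by positivity)
      (mul_le_mul_of_nonneg_left hΛ hΛ0.le)
  have hgL3 : γ / Λ ^ 3 ≤ γ / Λ ^ 2 := by
    refine div_le_div_of_nonneg_left hγ.le (by positivity) ?_
    exact pow_le_pow_right₀ (by linarith) (by norm_num)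
  have hgL3' : 0 < γ / Λ ^ 3 := by positivity
  have hd' : 256 * d = γ / Λ ^ 3 := by
    rw [hd]
    field_simp
  have hom : γ / (2 * Λ) = γ / Λ / 2 := by rw [div_div, mul_comm Λ 2]
  -- rotation
  set θ : ℝ := -(rho n b)⁻¹.arg with hθ
  have hexp : Complex.exp (θ * I) = rho n b / ‖rho n b‖ := by
    have e1 := Complex.norm_mul_exp_arg_mul_I (rho n b)⁻¹
    have n1 : ((‖rho n b‖ : ℝ) : ℂ) ≠ 0 := Complex.ofReal_ne_zero.2 (norm_ne_zero_iff.2 hρ)
    rw [norm_inv, Complex.ofReal_inv] at e1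
    have e2 : Complex.exp (((rho n b)⁻¹.arg : ℂ) * I) = ‖rho n b‖ * (rho n b)⁻¹ := by
      calc Complex.exp (((rho n b)⁻¹.arg : ℂ) * I)
          = ‖rho n b‖ * ((‖rho n b‖ : ℂ)⁻¹ * Complex.exp (((rho n b)⁻¹.arg : ℂ) * I)) :=
            (mul_inv_cancel_left₀ n1 _).symm
        _ = ‖rho n b‖ * (rho n b)⁻¹ := by rw [e1]
    rw [hθ, Complex.ofReal_neg, neg_mul, Complex.exp_neg, e2, mul_inv, inv_inv, div_eq_mul_inv,
      mul_comm]
  have hkk : ((k : ℕ) : ZMod k) = 0 := ZMod.natCast_self k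
  have hrot : ∀ y, Flat b g (ψ i₀) y (γ / (2 * Λ)) → Flat b g (ψ i₀) (y - θ) (γ / (2 * Λ) / 64) := by
    intro y hy
    have h1 := hA i₀ k y le_rfl hy
    rw [(hcoc i₀).2.2.1, hkk, sub_zero] at h1
    rw [hθ, sub_neg_eq_add]
    exact h1
  obtain ⟨hN2, hwr⟩ := hWR k b g ψ fam i₀ γ Λ d θ N ce hγ hγ1 hΛ hd0 hd.le hN hper hgap hdg hact
    hcov hrot (by rw [hexp]; exact hsep)
  have hgap' : ∀ j, ce j + γ ≤ ce (j + 1) := fun j => (hgap j).le
  have hq : ∀ i : ZMod k, i₀ - (((i₀ - i).val : ℕ) : ZMod k) = i := by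
    intro i
    rw [ZMod.natCast_zmod_val]
    ring
  set α : ZMod k → ℝ := fun i => (Kq n b ψ i₀ (i₀ - i).val).arg with hα
  -- covering
  have hcv : ∀ i y T, Dep b g (ψ i) y T → T ≤ γ / Λ ^ 2 → ∃ j, |y - (ce j + α i)| ≤ γ / Λ := by
    intro i y T hT hTs
    by_contra hcon
    push Not at hcon
    have hdpr := hDPR k b g ψ fam i₀
    have h1 : Flat b g (ψ i₀) (y - α i) (γ / (2 * Λ)) := by
      refine hdpr.2.2.2.2.2.1 _ _ (by positivity) ?_
      intro y' T' hy' hT'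
      by_contra hc
      push Not at hc
      rcases hdg y' T' hT' with h2 | h2
      · obtain ⟨j, hj⟩ := hcov y' T' hT' h2
        have h3 := hcon j
        have h4 : |y - (ce j + α i)| ≤ |y' - (y - α i)| + |y' - ce j| := by
          have : y - (ce j + α i) = -(y' - (y - α i)) + (y' - ce j) := by ring
          rw [this]
          refine (abs_add_le _ _).trans ?_
          rw [abs_neg]
        rw [hom] at hy'
        linarith
      · rw [hom] at hc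
        linarith
    have h2 := hA i₀ (i₀ - i).val _ (ZMod.val_lt _).le h1
    rw [hq i] at h2
    have e1 : y - α i + (Kq n b ψ i₀ (i₀ - i).val).arg = y := sub_add_cancel y _
    rw [e1] at h2
    have h3 := (hDPR k b g ψ fam i).2.2.2.2.1 _ _ _ h2 hT
    rw [hom] at h3
    linarith
  refine ⟨α, hN2, hper, hgap', hcv, ?_⟩
  intro i j
  by_contra hcon
  push Not at hcon
  set q := (i₀ - i).val with hqdef
  have hqk : q ≤ k := (ZMod.val_lt _).le
  have hi : i - ((k - q : ℕ) : ZMod k) = i₀ := by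
    rw [Nat.cast_sub hqk, hkk, hqdef, ZMod.natCast_zmod_val]
    ring
  obtain ⟨j', m, hx⟩ := hwr j
  set x := ce j' - (ce j - θ) + m * (2 * Real.pi) with hxdef
  have hK := (hcoc i₀).2.2.2 q (k - q)
  rw [show q + (k - q) = k by omega, (hcoc i₀).2.2.1, hq i] at hK
  obtain ⟨m₀, hm₀⟩ := WIN_arg ((hcoc i₀).1 q) ((hcoc i).1 (k - q))
  rw [← hK] at hm₀
  have hα' : α i = (Kq n b ψ i₀ q).arg := rfl
  have hβ : α i + (Kq n b ψ i (k - q)).arg = -θ + m₀ * (2 * Real.pi) := by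
    rw [hα', hm₀, hθ]
    ring
  have h1 : Flat b g (ψ i) (ce j + α i + x) (128 * d) := by
    refine (hDPR k b g ψ fam i).2.2.2.2.2.1 _ _ (by positivity) ?_
    intro y' T' hy' hT'
    by_contra hc
    push Not at hc
    obtain ⟨j₂, hj₂⟩ := hcv i y' T' hT' (by linarith)
    have h4 : |ce j₂ - ce j| ≤ |y' - (ce j₂ + α i)| + |y' - (ce j + α i + x)| + |x| := by
      have : ce j₂ - ce j = -(y' - (ce j₂ + α i)) + ((y' - (ce j + α i + x)) + x) := by ring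
      rw [this]
      refine (abs_add_le _ _).trans ?_
      have := abs_add_le (y' - (ce j + α i + x)) x
      rw [abs_neg]
      linarith
    have h5 := WIN_eq hγ hgap' (i := j₂) (j := j) (by linarith)
    rw [h5] at hj₂
    have := hcon y' T' hj₂ hT'
    linarith
  have h2 := hB i (k - q) _ (by omega) h1
  rw [hi] at h2
  have e1 : ce j + α i + x + (Kq n b ψ i (k - q)).arg =
      ce j' + ((m + m₀ : ℤ) : ℝ) * (2 * Real.pi) := by
    rw [hxdef]
    push_cast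
    linarith
  rw [e1] at h2
  rw [(hNOSL k b g i₀ (ψ i₀) (hpn i₀)).2.1] at h2
  obtain ⟨T, hT1, hT2⟩ := hact j'
  have h3 := (hDPR k b g ψ fam i₀).2.2.2.2.1 _ _ _ h2 hT1
  linarith

/-- WIN: the windows. -/
theorem WIN (hFRQ : FRQ_stmt) (hWB : WB_stmt) (hWR : WR_stmt) (hDPR : DPR_stmt)
    (hNOSL : NOSL_stmt) (hCOC : COC_stmt) : WIN_stmt := by
  intro n d₀ Λ hn hd₀ hΛ
  have hΛ0 : 0 < Λ := by linarith
  set M : ℝ := 256 * Λ ^ 3 with hM
  have hΛ3 : 1 ≤ Λ ^ 3 := one_le_pow₀ (by linarith)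
  have hM2 : 2 ≤ M := by rw [hM]; linarith
  have hM0 : 0 < M := by linarith
  set s₀ : ℝ := min d₀ 1 / 100 with hs₀
  have hmin : 0 < min d₀ 1 := lt_min hd₀ one_pos
  have hs0 : 0 < s₀ := by positivity
  have hs1 : s₀ ≤ 1 / 100 := by
    have := min_le_right d₀ 1
    rw [hs₀]
    linarith
  have hsd : s₀ < d₀ := by
    have := min_le_left d₀ 1
    rw [hs₀]
    linarith
  have hg0 : ∀ t : ℕ, 0 < s₀ / M ^ t := fun t => by positivity
  have hgs : ∀ t : ℕ, s₀ / M ^ t ≤ s₀ := fun t =>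
    div_le_self hs0.le (one_le_pow₀ (by linarith))
  have hFa := fun t : ℕ => hFRQ n (s₀ / M ^ t / (2 * Λ)) hn (div_pos (hg0 t) (by linarith))
    ((div_le_self (hg0 t).le (by linarith)).trans (by linarith [hgs t]))
  have hFb := fun t : ℕ => hFRQ n (128 * (s₀ / M ^ t / (256 * Λ ^ 3))) hn
    (mul_pos (by norm_num) (div_pos (hg0 t) (by linarith))) (by
      have h1 : s₀ / M ^ t / (256 * Λ ^ 3) ≤ s₀ / M ^ t / 256 :=
        div_le_div_of_nonneg_left (hg0 t).le (by norm_num) (by linarith)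
      linarith [hgs t])
  choose Ra hRa εa hεa hfa using hFa
  choose Rb hRb εb hεb hfb using hFb
  set R₀ : ℝ := ∑ t ∈ Finset.range 17, (Ra t + Rb t) with hR₀
  set ε₀ : ℝ := (∑ t ∈ Finset.range 17, ((εa t)⁻¹ + (εb t)⁻¹))⁻¹ with hε₀
  have hRpos : ∀ t ∈ Finset.range 17, 0 ≤ Ra t + Rb t := fun t _ => by linarith [hRa t, hRb t]
  have hεpos : ∀ t ∈ Finset.range 17, 0 ≤ (εa t)⁻¹ + (εb t)⁻¹ := fun t _ =>
    (add_pos (inv_pos.2 (hεa t)) (inv_pos.2 (hεb t))).le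
  have hRt : ∀ t ∈ Finset.range 17, Ra t ≤ R₀ ∧ Rb t ≤ R₀ := by
    intro t ht
    have := Finset.single_le_sum (f := fun t => Ra t + Rb t) hRpos ht
    constructor <;> linarith [hRa t, hRb t]
  have hεsum : 0 < ∑ t ∈ Finset.range 17, ((εa t)⁻¹ + (εb t)⁻¹) :=
    Finset.sum_pos (fun t _ => add_pos (inv_pos.2 (hεa t)) (inv_pos.2 (hεb t))) ⟨0, by simp⟩
  have hεt : ∀ t ∈ Finset.range 17, ε₀ ≤ εa t ∧ ε₀ ≤ εb t := by
    intro t ht
    have := Finset.single_le_sum (f := fun t => (εa t)⁻¹ + (εb t)⁻¹) hεpos ht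
    have p1 := inv_pos.2 (hεa t)
    have p2 := inv_pos.2 (hεb t)
    constructor
    · exact inv_le_of_inv_le₀ (hεa t) (by linarith)
    · exact inv_le_of_inv_le₀ (hεb t) (by linarith)
  refine ⟨(Finset.Icc (1 : ℕ) 16).image fun t => s₀ / M ^ t, ?_, R₀, ?_, ε₀, inv_pos.2 hεsum, ?_⟩
  · intro γ hγ
    rw [Finset.mem_image] at hγ
    obtain ⟨t, -, rfl⟩ := hγ
    exact ⟨hg0 t, by linarith [hgs t]⟩
  · exact (hRa 0).trans (hRt 0 (by simp)).1
  intro k _ c b g ψ R ε su fam hR hε hd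
  obtain ⟨i₀, t, ht, N, ce, hN, hper, hgap, hdg, hact, hcov⟩ :=
    hWB k b g ψ fam M s₀ hM2 hs0 (by linarith)
  have ht' : t ∈ Finset.range 17 := by
    rw [Finset.mem_Icc] at ht
    rw [Finset.mem_range]
    omega
  have hρ0 : rho n b ≠ 0 := by
    intro h0
    have := su.rho1
    rw [h0, norm_zero] at this
    linarith
  have hpow : s₀ / M ^ (t + 1) = s₀ / M ^ t / (256 * Λ ^ 3) := by
    rw [pow_succ, ← div_div]
  obtain ⟨α, hα⟩ := WIN_core hDPR hNOSL hWR hCOC n k b g ψ hn fam su.cyc.ne0 hρ0 (s₀ / M ^ t) Λ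
    (s₀ / M ^ (t + 1)) (hg0 t) (by linarith [hgs t]) hΛ hpow
    (fun i q y hq hf => hfa t k c b g ψ R ε su ((hRt t ht').1.trans hR) (hε.trans (hεt t ht').1)
      i q y hq hf)
    (fun i q y hq hf => by
      rw [hpow] at hf ⊢
      exact hfb t k c b g ψ R ε su ((hRt t ht').2.trans hR) (hε.trans (hεt t ht').2)
        i q y hq hf)
    (lt_of_le_of_lt (hgs t) (lt_of_lt_of_le hsd hd)) i₀ N ce hN hper hgap hdg hact hcov
  exact ⟨s₀ / M ^ t, Finset.mem_image_of_mem _ ht, N, ce, α, hα⟩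

end MQ
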