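import Pool.Agent.helper12.MQ.REP
import Pool.Agent.helper21.MQ.FINS
import Pool.Agent.helper22.MQ.SELF
import Pool.Agent.helper25.MQ.HINJ
import Pool.Agent.helper25.MQ.NOG
import Pool.Agent.helper25.MQ.RE0
import Pool.Agent.helper28.MQ.LOCZ
import Pool.Agent.helper28.MQ.PLB
import Pool.Agent.helper30.MQ.LT
import Pool.Agent.helper31.MQ.NG1
import Pool.Agent.helper34.MQ.JMP
import Pool.Agent.helper43.MQ.INC2
import Pool.Agent.helper43.MQ.NG3
import Pool.Agent.helper51.MQ.DLOC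
import Pool.Agent.helper51.MQ.KRE
import Pool.Agent.helper52.MQ.WSC
import Pool.Agent.helper53.MQ.DG
import Pool.Agent.helper56.MQ.NG2
import Pool.Agent.helper6.MQ.GL
import Pool.Agent.helper63.MQ.SHF
import Pool.Agent.helper63.MQ.WB
import Pool.Agent.helper64.MQ.FRQ
import Pool.Agent.helper7.MQ.CONF
import Pool.Agent.helper7.MQ.WR
import Pool.Agent.helper70.MQ.DPR
import Pool.Agent.helper70.MQ.PLA
import Pool.Agent.helper71.MQ.COC
import Pool.Agent.helper74.MQ.App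
import Pool.Agent.helper74.MQ.MAINB
import Pool.Agent.helper74.MQ.STR
import Pool.Agent.helper74.MQ.WIN
import Pool.Agent.helper78.MQ.LDIS
import Pool.Agent.helper82.MQ.UNQ
import Pool.Agent.helper90.MQ.ROTQ
import Pool.Agent.helper91.MQ.HIT
import Pool.Agent.helper92.MQ.ADJ
import Pool.Agent.helper97.MQ.FOLD
import Pool.Agent.helper97.MQ.HPER
import Pool.Agent.helper97.MQ.P1W
import Pool.Agent.helper97.MQ.PHW
import Pool.Agent.helper97.MQ.SYM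
import Pool.Agent.helper99.MQ.CMP
import Pool.Agent.helper99.MQ.COMB
import Pool.Agent.helper99.MQ.WCL
import Pool.Agent.helper36.MP.All

/-!
# Project mq: (MP_af9036_an): assembly

Modules by helper6, 7, 12, 21, 22, 25, 28, 30, 31, 34, 43, 51, 52, 53, 56, 59, 63, 64, 70, 71, 74, 78, 82, 90, 91, 92,
97, 99; based on project mp: (helper36).
-/

set_option autoImplicit false

open Complex Metric Set Filter Topology MeasureTheory MPS

noncomputable section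

namespace MQ

theorem FINS_t : FINS_stmt := FINS TP_ok END_ok PRONG_ok
theorem DPR_t : DPR_stmt := DPR NOSL_ok NFM_ok
theorem SYM_t : SYM_stmt := SYM NH_ok
theorem UNQ_t : UNQ_stmt := UNQ NI_ok ND_ok
theorem RE0_t : RE0_stmt := RE0 ND_ok NI_ok
theorem FOLD_t : FOLD_stmt := FOLD
theorem STR_t : STR_stmt := STR SYM_t DPR_t
theorem GL_t : GL_stmt := GL_ok NU_ok NH_ok ND_ok
theorem LDIS_t : LDIS_stmt := LDIS NU_ok NH_ok NI_ok
theorem DLOC_t : DLOC_stmt := DLOC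
theorem JMP_t : JMP_stmt := JMP LDIS_t
theorem PLA_t : PLA_stmt := PLA LDIS_t DLOC_t JMP_t
theorem PLB_t : PLB_stmt := PLB LDIS_t DLOC_t JMP_t
theorem SHF_t : SHF_stmt := SHF
theorem COC_t : COC_stmt := COC
theorem DG_t : DG_stmt := DG
theorem INC2_t : INC2_stmt := INC2 DG_t P1U_ok PHI_ok PNX_ok NH_ok
theorem P1W_t : P1W_stmt := P1W NG_ok TBD_ok PH1_ok
theorem PHW_t : PHW_stmt := PHW NG_ok NGF_ok ND_ok TBD_ok PH1_ok PH2_ok
theorem KRE_t : KRE_stmt := KRE P1W_t INC2_t COC_t SHF_t TR_ok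
theorem ROTQ_t : ROTQ_stmt := ROTQ LRU_ok NH_ok PT2_ok P2A_ok LEA_ok INC2_t
theorem FRQ_t : FRQ_stmt := FRQ TR_ok NOSL_ok SHF_t PHW_t P1W_t KRE_t ROTQ_t
theorem CMP_t : CMP_stmt := CMP
theorem LT_t : LT_stmt := LT SHF_t TR_ok NH_ok P1W_t PHW_t KRE_t INC2_t ROTQ_t CMP_t P1A_ok P2A_ok
  PT1_ok PT2_ok GL_t RE0_t
theorem NG1_t : NG1_stmt := NG1 LT_t COC_t SYM_t PLA_t
theorem NG2_t : NG2_stmt := NG2 LT_t COC_t SYM_t UNQ_t PLA_t
theorem NG3_t : NG3_stmt := NG3 LT_t SYM_t UNQ_t PLB_t COC_t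
theorem NOG_t : NOG_stmt := NOG NG1_t NG2_t NG3_t
theorem WSC_t : WSC_stmt := WSC
theorem WCL_t : WCL_stmt := WCL
theorem WB_t : WB_stmt := WB CNT_ok FINS_t DPR_t WSC_t WCL_t
theorem WR_t : WR_stmt := WR DPR_t
theorem WIN_t : WIN_stmt := WIN FRQ_t WB_t WR_t DPR_t NOSL_ok COC_t
theorem REP_t : REP_stmt := REP FINS_t DPR_t
theorem LOCZ_t : LOCZ_stmt := LOCZ TP_ok
theorem HIT_t : HIT_stmt := HIT END_ok TP_ok PRC_ok NU_ok
theorem HINJ_t : HINJ_stmt := HINJ NU_ok NI_ok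
theorem HPER_t : HPER_stmt := HPER
theorem ADJ_t : ADJ_stmt := ADJ
theorem CONF_t : CONF_stmt := CONF ADJ_t STR_t SYM_t DPR_t
theorem SELF_t : SELF_stmt := SELF HINJ_t HPER_t CONF_t FOLD_t SYM_t UNQ_t
theorem COMB_t : COMB_stmt := COMB
theorem MAINB_t : MAINB_stmt := MAINB WIN_t NOG_t REP_t NM_ok HIT_t LOCZ_t HINJ_t HPER_t CONF_t SELF_t
  COMB_t TP_ok SYM_t
theorem THB_t : THB_stmt := THB MAINB_t TGP_ok
theorem FA1_t : FA1_stmt := FA1 ZBIG_ok ZK1_ok ZCYC_ok TG_ok ZL_ok THB_t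
theorem FB1_t : FB1_stmt := FB1 FA1_t ZN_ok ZC_ok ZBC_ok
theorem FD1_t : FD1_stmt := FD1 FB1_t
theorem FC1_t : FC1_stmt := FC1 FB1_t

end MQ
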