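import Pool.Agent.helper36.MP.SpecC

/-!
# Project mq: (MP_af9036_an): the universal strip with the single exceptional point `ζ = 1`

Improvement of Theorem A of helper36 (project mp:, paper /team-store/MP_af9036_strip_helper36.md, quoted as
[paper, (x.y)]): the condition on `(ρ/|ρ|)^j`, `j ≤ 5`, is replaced by the condition on `ρ/|ρ|` alone.

PLAN. (T) Phase 2 transports flat discs and whole strips between two cylinders from the index `i` to `i - q` for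
every `q ≤ k`. (P) three disjoint horizontal trajectories `b_i -> b_l` have opposite cyclic orders at both ends.
(T), (P): there is no wide strip between two different cylinders (`NOG`), since `f^{-k}` rotates both ends by `-θ`.
(W) all cylinders have the same number `N ≥ 2` of windows, in which all critical directions of small depth lie. In every window
take the critical direction of MINIMAL depth, topmost among those. (Z), (C): two of them that end at adjacent prongs of a zero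
force a strip over a whole arc (`CONF`), impossible for different cylinders; so the zeros have total order `≥ 2k > 2k - 1 = deg P`.

RULES. File `Pool/Agent/<seat>/MQ/XX.lean`, `import Pool.Agent.helper74.MQ.Spec`, `namespace MQ`,
`theorem XX (h : YY_stmt) ... : XX_stmt`. Any other statement of this file, and every statement of `MPS` (all of them are
proved: `MPS.XX_ok` in `Pool/Agent/helper36/MP/All.lean`; hypotheses like `NU_stmt` are welcome), may be a hypothesis (no circles).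
Auxiliary lemmas prefixed `XX_`. You may import the proof files of mp: and use or copy their auxiliary lemmas.
-/

set_option autoImplicit false

open Complex Metric Set Filter Topology MeasureTheory MPS

noncomputable section

namespace MQ

section
variable {k : ℕ} [NeZero k]

/-- `T` is the depth of the direction `y` (first singular time of the horizontal ray). `T ≥ 0` automatically. -/
def Dep (b g : ZMod k → ℂ) (ψ : ℂ → ℂ) (y T : ℝ) : Prop :=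
  Slit b g ψ T y ∧ ∀ t < T, ¬ Slit b g ψ t y

/-- a natural map on a full horizontal strip, from the pole of `ψ` (left end) to the pole of `ψ'` (right end),
`w + w' = S`. -/
structure IsStrip (b g : ZMod k → ℂ) (ψ ψ' : ℂ → ℂ) (S : ℂ) (y₁ y₂ : ℝ) (χ : ℂ → ℂ) : Prop where
  nat : IsNat b g χ {w | y₁ < w.im ∧ w.im < y₂}
  left : ∀ w : ℂ, y₁ < w.im → w.im < y₂ → w.re < 0 → χ w = hat ψ w
  right : ∀ w : ℂ, y₁ < w.im → w.im < y₂ → S.re < w.re → χ w = hat ψ' (S - w)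

/-- there is a strip between the cylinders of `ψ` and `ψ'` over the directions `(y₁, y₂)` of `ψ`. -/
def Strip (b g : ZMod k → ℂ) (ψ ψ' : ℂ → ℂ) (S : ℂ) (y₁ y₂ : ℝ) : Prop :=
  ∃ χ, IsStrip b g ψ ψ' S y₁ y₂ χ

/-- the standing assumptions on the flat structure. -/
structure Fam (b g : ZMod k → ℂ) (ψ : ZMod k → ℂ → ℂ) : Prop where
  hk : 2 ≤ k
  inj : Function.Injective b
  sum : ∑ j, g j ≠ 0
  mx : ∀ i, MaxPN b g i (ψ i)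

/-- the derivative of the transport from the pole `i` to the pole `i - q`. -/
def Kq (n : ℕ) (b : ZMod k → ℂ) (ψ : ZMod k → ℂ → ℂ) (i : ZMod k) (q : ℕ) : ℂ :=
  deriv (ψ i) 0 / (deriv (ψ (i - (q : ZMod k))) 0 * ∏ j ∈ Finset.Icc 1 q, fd n (b (i - (j : ZMod k))))

/-- a local coordinate `h` at a zero `ζ` of order `m`: the natural coordinate is `h^((m+2)/2)`. -/
structure LocZ (b g : ZMod k → ℂ) (ζ : ℂ) (m : ℕ) (h : ℂ → ℂ) (r s : ℝ) : Prop where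
  rpos : 0 < r
  spos : 0 < s
  diff : DifferentiableOn ℂ h (ball ζ r)
  zero : h ζ = 0
  inj : InjOn h (ball ζ r)
  surj : ball 0 s ⊆ h '' ball ζ r
  av : ∀ z ∈ ball ζ r, ∀ j, z ≠ b j
  eq : ∀ z ∈ ball ζ r, ((m : ℂ) + 2) ^ 2 * h z ^ m * deriv h z ^ 2 = 4 * BB b g z

/-- the ray `y` of `ψ` reaches `ζ` at the time `T` along the prong with index `a`. -/
def Hit (b g : ZMod k → ℂ) (ψ : ℂ → ℂ) (y T : ℝ) (ζ : ℂ) (m : ℕ) (h : ℂ → ℂ) (r : ℝ)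
    (a : ZMod (m + 2)) : Prop :=
  ∃ (χ : ℂ → ℂ) (Ω : Set ℂ), IsOpen Ω ∧ HP 0 ⊆ Ω ∧ (∀ w ∈ Ω, ∀ s : ℝ, 0 ≤ s → w - s ∈ Ω) ∧
    (∀ t : ℝ, t < T → (t : ℂ) + y * I ∈ Ω) ∧ IsNat b g χ Ω ∧ EqOn χ (hat ψ) (HP 0) ∧
    ∀ᶠ t : ℝ in 𝓝[<] T, χ ((t : ℂ) + y * I) ∈ ball ζ r ∧
      h (χ ((t : ℂ) + y * I)) = (((T - t) ^ ((2 : ℝ) / ((m : ℝ) + 2)) : ℝ) : ℂ) *
        Complex.exp (2 * Real.pi * I * (a.val : ℂ) / ((m : ℂ) + 2))

/-- the integral of `dz/(z - p)` along the trajectory `t ↦ χ (t + i y)`. -/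
def Nn (χ : ℂ → ℂ) (y : ℝ) (p : ℂ) : ℂ :=
  ∫ t : ℝ, deriv χ ((t : ℂ) + y * I) / (χ ((t : ℂ) + y * I) - p)

/-- windows: centres `c j + α i`, radius `γ/Λ`, gap at least `γ`; `N` of them per turn. -/
structure Win (b g : ZMod k → ℂ) (ψ : ZMod k → ℂ → ℂ) (γ Λ : ℝ) (N : ℕ) (c : ℤ → ℝ)
    (α : ZMod k → ℝ) : Prop where
  hN : 2 ≤ N
  per : ∀ j, c (j + N) = c j + 2 * Real.pi
  gap : ∀ j, c j + γ ≤ c (j + 1)
  cov : ∀ i y T, Dep b g (ψ i) y T → T ≤ γ / Λ ^ 2 → ∃ j, |y - (c j + α i)| ≤ γ / Λ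
  act : ∀ i j, ∃ y T, |y - (c j + α i)| ≤ γ / Λ ∧ Dep b g (ψ i) y T ∧ T ≤ γ / Λ ^ 3

/-- the chosen critical directions: minimal depth in the window, topmost among those. -/
structure Reps (b g : ZMod k → ℂ) (ψ : ZMod k → ℂ → ℂ) (γ Λ : ℝ) (N : ℕ) (c : ℤ → ℝ)
    (α : ZMod k → ℝ) (rep τ : ZMod k → ℤ → ℝ) : Prop where
  near : ∀ i j, |rep i j - (c j + α i)| ≤ γ / Λ
  dep : ∀ i j, Dep b g (ψ i) (rep i j) (τ i j)
  small : ∀ i j, τ i j ≤ γ / Λ ^ 3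
  min : ∀ i j y T, |y - (c j + α i)| ≤ γ / Λ → Dep b g (ψ i) y T →
    τ i j ≤ T ∧ (T = τ i j → y ≤ rep i j)
  perr : ∀ i j, rep i (j + N) = rep i j + 2 * Real.pi
  pert : ∀ i j, τ i (j + N) = τ i j

end

/-! ## Part L: strips -/

/-- SYM: elementary operations on strips.
PROOF. (1) `χ' w = χ (S - w)`. (2) `hat ψ`, `hat ψ'` are `2πi`-periodic; translate `χ` by `2πi m`. (3) restriction. (4) and (5): glue `χ` and `hat ψ` (they agree on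
the common part of the domains). -/
def SYM_stmt : Prop := ∀ (k : ℕ) [NeZero k] (b g : ZMod k → ℂ) (i l : ZMod k) (ψ ψ' : ℂ → ℂ),
  PN b g i ψ 1 → PN b g l ψ' 1 → ∀ (S : ℂ) (y₁ y₂ : ℝ), Strip b g ψ ψ' S y₁ y₂ →
  Strip b g ψ' ψ S (S.im - y₂) (S.im - y₁) ∧
  (∀ m : ℤ, Strip b g ψ ψ' (S + 2 * Real.pi * I * m) y₁ y₂ ∧
    Strip b g ψ ψ' (S + 2 * Real.pi * I * m) (y₁ + m * (2 * Real.pi)) (y₂ + m * (2 * Real.pi))) ∧
  (∀ y₁' y₂', y₁ ≤ y₁' → y₂' ≤ y₂ → Strip b g ψ ψ' S y₁' y₂') ∧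
  (∀ y t, y₁ < y → y < y₂ → ¬ Slit b g ψ t y) ∧
  (∀ y r, 0 < r → y₁ ≤ y - r → y + r ≤ y₂ → Flat b g ψ y r)

/-- UNQ: the partner is unique.
PROOF. On the common strip both maps are `hat (ψ i)` for `Re w < 0`, so they agree (identity theorem, convex set). For large `Re w`:
`hat (ψ l) (S - w) = hat (ψ l') (S' - w)`. ND: `l = l'`; NI: `exp (S - w) = exp (S' - w)`. -/
def UNQ_stmt : Prop := ∀ (k : ℕ) [NeZero k] (b g : ZMod k → ℂ) (ψ : ZMod k → ℂ → ℂ), Fam b g ψ →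
  ∀ (i l l' : ZMod k) (S S' : ℂ) (y₁ y₂ y₁' y₂' y : ℝ), Strip b g (ψ i) (ψ l) S y₁ y₂ →
  Strip b g (ψ i) (ψ l') S' y₁' y₂' → y₁ < y → y < y₂ → y₁' < y → y < y₂' →
  l = l' ∧ ∃ m : ℤ, S' = S + 2 * Real.pi * I * m

/-- RE0: `Re S ≥ 0`.
PROOF. If `Re S < 0`: for `Re S < Re w < 0` `hat (ψ i) w = hat (ψ l) (S - w)`; ND if `i ≠ l`; if `i = l`, NI: `exp w = exp (S - w)` for all these `w`. -/
def RE0_stmt : Prop := ∀ (k : ℕ) [NeZero k] (b g : ZMod k → ℂ) (ψ : ZMod k → ℂ → ℂ), Fam b g ψ →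
  ∀ (i l : ZMod k) (S : ℂ) (y₁ y₂ : ℝ), y₁ < y₂ → Strip b g (ψ i) (ψ l) S y₁ y₂ → 0 ≤ S.re

/-- FOLD: no strip is folded onto itself.
PROOF. On the strip `|Im w - Im S/2| < e` (inside `(y₁,y₂)`): `χ w = χ (S - w)` for `Re w > Re S` and `Re (S - w) < 0`, hence everywhere (identity theorem); differentiate at
`w = S/2`: `deriv χ (S/2) = - deriv χ (S/2) = 0`, contradiction to `IsNat.eq`. -/
def FOLD_stmt : Prop := ∀ (k : ℕ) [NeZero k] (b g : ZMod k → ℂ) (i : ZMod k) (ψ : ℂ → ℂ),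
  PN b g i ψ 1 → ∀ (S : ℂ) (y₁ y₂ : ℝ), y₁ < S.im / 2 → S.im / 2 < y₂ → ¬ Strip b g ψ ψ S y₁ y₂

/-- STR: the maximal strip below `y`.
PROOF. `w₀` = supremum of the `w` with `Strip S (y - w) y` (`≤ 2π`: otherwise `y - 2π` is inside, but it is critical for `ψ i` by periodicity; SYM (4)). The strip of height `w₀` exists (union of
strips, the maps agree by the identity theorem). Let `t₁`, `t₂` be real, `¬ Slit (ψ i) t₁ (y - w₀)`, `¬ Slit (ψ l) t₂ (Im S - y + w₀)` and `t₁ + t₂ > Re S`. Then there are `e > 0`, a natural map `χ₁` on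
`HP 0 ∪ {|Im w - (y - w₀)| < e, Re w < t₁ + e}` and `χ₂` on the analogous set for `ψ l`. On the rectangle `|Im w - (y - w₀)| < e`, `Re S - t₂ - e < Re w < t₁ + e` (non empty, convex) `χ₁ w` and `χ₂ (S - w)` are both
equal to the strip map above the line `Im w = y - w₀`, so they agree; gluing `χ₁` (for `Re w < t₁ + e`) and `χ₂ (S - ·)` (for `Re w > Re S - t₂ - e`) gives a strip over `(y - w₀ - e, y - w₀ + e)`, and with the old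
one over `(y - w₀ - e, y)`: contradiction. So `t₁ + t₂ ≤ Re S` for all such `t₁, t₂`. As `¬ Slit t` for all `t < 0`, the suprema `t_a`, `t_b` of the `t₁`, `t₂` exist; they are the depths
(as in ENA: `Slit` at the supremum), `t_a + t_b ≤ Re S`. (`t₁`, `t₂` may be negative: then replace them by numbers `< 0` close to `0`, or use `χ₁` only for `Re w < max 0 (t₁ + e)`.) -/
def STR_stmt : Prop := ∀ (k : ℕ) [NeZero k] (b g : ZMod k → ℂ) (ψ : ZMod k → ℂ → ℂ), Fam b g ψ →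
  ∀ (i l : ZMod k) (S : ℂ) (y e T : ℝ), 0 < e → Strip b g (ψ i) (ψ l) S (y - e) y →
  Dep b g (ψ i) y T → ∃ w₀ ta tb : ℝ, e ≤ w₀ ∧ Strip b g (ψ i) (ψ l) S (y - w₀) y ∧
    Dep b g (ψ i) (y - w₀) ta ∧ Dep b g (ψ l) (S.im - y + w₀) tb ∧ ta + tb ≤ S.re

/-- GL: a flat disc that meets another cylinder gives a strip.
PROOF. NU for `χ` at `v` and `hat (ψ l)` at `v'`. `s = 1`: shift to the left: `b i = b l` (as in NHP). So `s = -1`: `χ (v + h) = hat (ψ l) (v' - h)` on connected sets. `S = v + v'`. If `Re S < 0`: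
take the connected set `{w ∈ HP 0 ∪ ball | Re w > Re S}` (union of a vertical strip and a ball that meet) and get `hat (ψ i) = hat (ψ l) (S - ·)` somewhere in `HP 0`: contradiction to ND. So
`Re S ≥ 0` and `χ w = hat (ψ l) (S - w)` on `{w ∈ ball | Re w > Re S}` (convex, contains `v`). Choose `μ > 0` with `e² + (Re S + μ)² < r²`; the strip map is `χ w` for `Re w < Re S + μ` (these `w` are in
`HP 0 ∪ ball`), `hat (ψ l) (S - w)` for `Re w > Re S`. -/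
def GL_stmt : Prop := ∀ (k : ℕ) [NeZero k] (b g : ZMod k → ℂ) (ψ : ZMod k → ℂ → ℂ), Fam b g ψ →
  ∀ (i l : ZMod k) (χ : ℂ → ℂ) (y r e : ℝ) (v v' : ℂ), i ≠ l → 0 < e →
  IsNat b g χ (HP 0 ∪ ball ((y : ℂ) * I) r) → EqOn χ (hat (ψ i)) (HP 0) →
  v ∈ ball ((y : ℂ) * I) r → v'.re < 0 → χ v = hat (ψ l) v' → e ^ 2 + (v + v').re ^ 2 < r ^ 2 →
  Strip b g (ψ i) (ψ l) (v + v') (y - e) (y + e)

/-! ## Part P: planarity -/

/-- LDIS: trajectories in strips are disjoint.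
PROOF. NU gives `s`. (1) `s = -1`: `χ₁ (w + h) = χ₂ (w' - h)` for all real `h`; `h → -∞`: `b i = b l'`. `s = 1`: `h → -∞`: NI. (2) `s = -1`: `χ₁ (w + h) = hat (ψ i) (w'' - h)`, `h → +∞`: `b l = b i`.
`s = 1`: `h → -∞`, NI. (3) by SYM. (4) `s = 1`, `h → -∞`: `b i = b j`; `s = -1`, `h → +∞`: `b l = b j`. -/
def LDIS_stmt : Prop := ∀ (k : ℕ) [NeZero k] (b g : ZMod k → ℂ) (ψ : ZMod k → ℂ → ℂ), Fam b g ψ →
  ∀ (i l l' : ZMod k) (S₁ S₂ : ℂ) (a₁ c₁ a₂ c₂ : ℝ) (χ₁ χ₂ : ℂ → ℂ), i ≠ l → i ≠ l' →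
  IsStrip b g (ψ i) (ψ l) S₁ a₁ c₁ χ₁ → IsStrip b g (ψ i) (ψ l') S₂ a₂ c₂ χ₂ →
  (∀ w w', a₁ < w.im → w.im < c₁ → a₂ < w'.im → w'.im < c₂ → χ₁ w = χ₂ w' →
    Complex.exp w = Complex.exp w') ∧
  (∀ w w'', a₁ < w.im → w.im < c₁ → w''.re < 0 → χ₁ w = hat (ψ i) w'' →
    Complex.exp w'' = Complex.exp w) ∧
  (∀ w w'', a₁ < w.im → w.im < c₁ → w''.re < 0 → χ₁ w = hat (ψ l) w'' →
    Complex.exp w'' = Complex.exp (S₁ - w)) ∧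
  (∀ w j, a₁ < w.im → w.im < c₁ → j ≠ i → j ≠ l → χ₁ w ∉ ψ j '' ball 0 1)

/-- DLOC: the difference of two trajectory integrals is constant on connected sets.
PROOF. `λ t = χ (t + iy)` tends to `b i` for `t → -∞` and to `b l` for `t → +∞`, and `‖λ' t‖ ≤ C e^{-|t|}` (`ψ' , ψ` are differentiable at `0`). The set `Z = {λ₁ t} ∪ {λ₂ t} ∪ {b i, b l}` is closed. For `p ∉ Z`,
`p'` near `p` (`‖p' - p‖ < ½ dist (p, Z)`): `λ'/(λ - p) - λ'/(λ - p')` is the derivative of `Log ((λ - p)/(λ - p'))` (principal, the argument is in `ball 1 1`), so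
`Nn χ₁ y₁ p - Nn χ₁ y₁ p' = Log ((b l - p)/(b l - p')) - Log ((b i - p)/(b i - p'))` (`integral_of_hasDerivAt_of_tendsto`), the same for `χ₂`. So the difference is locally constant off `Z`; also each `Nn χ y` is continuous at
`p` not on its own closed trajectory. -/
def DLOC_stmt : Prop := ∀ (k : ℕ) [NeZero k] (b g : ZMod k → ℂ) (ψ : ZMod k → ℂ → ℂ), Fam b g ψ →
  ∀ (i l : ZMod k) (S₁ S₂ : ℂ) (y₁ y₂ e : ℝ) (χ₁ χ₂ : ℂ → ℂ), i ≠ l → 0 < e →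
  IsStrip b g (ψ i) (ψ l) S₁ (y₁ - e) (y₁ + e) χ₁ → IsStrip b g (ψ i) (ψ l) S₂ (y₂ - e) (y₂ + e) χ₂ →
  (∀ A : Set ℂ, IsPreconnected A → b i ∉ A → b l ∉ A → (∀ t : ℝ, χ₁ ((t : ℂ) + y₁ * I) ∉ A) →
    (∀ t : ℝ, χ₂ ((t : ℂ) + y₂ * I) ∉ A) → ∀ p ∈ A, ∀ p' ∈ A,
      Nn χ₁ y₁ p - Nn χ₂ y₂ p = Nn χ₁ y₁ p' - Nn χ₂ y₂ p') ∧
  (∀ p : ℂ, p ≠ b i → p ≠ b l → (∀ t : ℝ, χ₂ ((t : ℂ) + y₂ * I) ≠ p) → ContinuousAt (Nn χ₂ y₂) p)

/-- JMP: the jump across a trajectory.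
PROOF. `t₀ < 0`, `w₀ = t₀ + i y`, `λ t = χ (t + iy)`. Let `r > 0` be small. For `|t - t₀| ≥ r` the integrand is continuous in `p` near `χ w₀` (dominated), so this part does not contribute in the limit. For `|t - t₀| < r`:
`χ'(w)/(χ w - χ w_p) = 1/(w - w_p) + E(w, w_p)` with `E` continuous on `ball w₀ (2r) × ball w₀ (2r)` (`χ` is injective near `w₀`, `χ w - χ w_p = (w - w_p) g(w,w_p)`, `g(w,w) = χ' w`), so the `E`-parts cancel in the limit,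
and `∫_{-r}^{r} (1/(t - is) - 1/(t + is)) dt = 4 i arctan (r/s) → 2πi` as `s → 0⁺`. (Alternatively: primitive `Log (λ t - p)` on both sides of the crossing, or the coordinate `u` of `ψ`: `u - u_p`, `Log (1 - u₁/u_p)`.) -/
def JMP_stmt : Prop := ∀ (k : ℕ) [NeZero k] (b g : ZMod k → ℂ) (ψ : ZMod k → ℂ → ℂ), Fam b g ψ →
  ∀ (i l : ZMod k) (S : ℂ) (y e t₀ : ℝ) (χ : ℂ → ℂ), i ≠ l → 0 < e → t₀ < 0 →
  IsStrip b g (ψ i) (ψ l) S (y - e) (y + e) χ →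
  Tendsto (fun s : ℝ => Nn χ y (χ ((t₀ : ℂ) + (y + s : ℝ) * I)) - Nn χ y (χ ((t₀ : ℂ) + (y - s : ℝ) * I)))
    (𝓝[>] 0) (𝓝 (2 * Real.pi * I))

/-- PLA: three trajectories from `b i` to `b l` cannot have the same cyclic order at both ends.
PROOF. `D = Nn χ₀ y₀ - Nn χ₁ y₁`, constant (DLOC) on the connected sets that avoid the trajectories `0` and `1` (disjointness: LDIS). At `b i`: sector `P = {hat (ψ i) w | Re w < 0, y₀ < Im w < y₁}` and `Q` (`y₁ < Im w < y₀ + 2π`);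
`D(P) - D(Q) = 2πi` (JMP at `y₀`, `Nn χ₁ y₁` continuous there). At `b l`, with `y_j' = Im S_j - y_j`: `Q' = {hat (ψ l) w' | Re w' < 0, y₁' < Im w' < y₀' + 2π}`. The trajectory `y₀ + s` (small `s > 0`) is disjoint from `0` and `1`, starts in `P`
and ends in `Q'` (`Im w' = y₀' - s ≡ y₀' + 2π - s`): `D(Q') = D(P)`. The trajectory `2` starts in `Q` (`y₁ < y₂ < y₀ + 2π`) and ends in `Q'` (`y₁' < y₂' < y₀' + 2π`): `D(Q) = D(Q')`. So `D(P) = D(Q)`: contradiction. -/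
def PLA_stmt : Prop := ∀ (k : ℕ) [NeZero k] (b g : ZMod k → ℂ) (ψ : ZMod k → ℂ → ℂ), Fam b g ψ →
  ∀ (i l : ZMod k) (S₀ S₁ S₂ : ℂ) (y₀ y₁ y₂ e : ℝ), i ≠ l → 0 < e →
  Strip b g (ψ i) (ψ l) S₀ (y₀ - e) (y₀ + e) → Strip b g (ψ i) (ψ l) S₁ (y₁ - e) (y₁ + e) →
  Strip b g (ψ i) (ψ l) S₂ (y₂ - e) (y₂ + e) → y₀ < y₁ → y₁ < y₂ → y₂ < y₀ + 2 * Real.pi →
  S₀.im - y₀ < S₁.im - y₁ → S₁.im - y₁ < S₂.im - y₂ → S₂.im - y₂ < S₀.im - y₀ + 2 * Real.pi → False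

/-- PLB: crossing pairs of trajectories.
PROOF. `D`, `P`, `Q` as in PLA for the trajectories `y₀`, `y₁` to `b l`. The trajectories `y₂ ∈ (y₀,y₁)` and `y₃ ∈ (y₁, y₀ + 2π)` end in the cylinder `ψ l' '' ball 0 1`, which is connected and disjoint from the first two trajectories (LDIS (4)).
So `D(P) = D(Q)`. -/
def PLB_stmt : Prop := ∀ (k : ℕ) [NeZero k] (b g : ZMod k → ℂ) (ψ : ZMod k → ℂ → ℂ), Fam b g ψ →
  ∀ (i l l' : ZMod k) (S₀ S₁ S₂ S₃ : ℂ) (y₀ y₁ y₂ y₃ e : ℝ), i ≠ l → i ≠ l' → l ≠ l' → 0 < e →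
  Strip b g (ψ i) (ψ l) S₀ (y₀ - e) (y₀ + e) → Strip b g (ψ i) (ψ l) S₁ (y₁ - e) (y₁ + e) →
  Strip b g (ψ i) (ψ l') S₂ (y₂ - e) (y₂ + e) → Strip b g (ψ i) (ψ l') S₃ (y₃ - e) (y₃ + e) →
  y₀ < y₂ → y₂ < y₁ → y₁ < y₃ → y₃ < y₀ + 2 * Real.pi → False

/-! ## Part T: transport -/

/-- SHF: shift of the base point (reindexing of sums; see `MPS.TR`, Pool/Agent/helper30/MP/TR.lean). -/
def SHF_stmt : Prop := ∀ (n k : ℕ) [NeZero k] (c : ℂ) (b g : ZMod k → ℂ) (ψ : ZMod k → ℂ → ℂ)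
  (s : ZMod k), (Fam b g ψ → Fam (fun j => b (s + j)) (fun j => g (s + j)) (fun j => ψ (s + j))) ∧
  (∀ z, BB (fun j => b (s + j)) (fun j => g (s + j)) z = BB b g z) ∧
  (∀ (i : ZMod k) (q : ℕ), Kq n (fun j => b (s + j)) (fun j => ψ (s + j)) i q = Kq n b ψ (s + i) q) ∧
  (∀ χ Ω, IsNat (fun j => b (s + j)) (fun j => g (s + j)) χ Ω ↔ IsNat b g χ Ω) ∧
  (∀ χ χ' S y₁ y₂, Strip (fun j => b (s + j)) (fun j => g (s + j)) χ χ' S y₁ y₂ ↔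
    Strip b g χ χ' S y₁ y₂) ∧
  (∀ G Ω Q, LevSys n c (fun j => b (s + j)) (fun j => g (s + j)) G Ω Q ↔ LevSys n c b g G Ω Q) ∧
  (∀ G q w, tau (fun j => b (s + j)) (fun j => g (s + j)) G q w = tau b g G q w) ∧
  (∀ G q j w, bet n (fun j => b (s + j)) (fun j => g (s + j)) G q j w = bet n b g G q j w)

/-- COC: algebra of the transport derivatives. -/
def COC_stmt : Prop := ∀ (n k : ℕ) [NeZero k] (b : ZMod k → ℂ) (ψ : ZMod k → ℂ → ℂ), 2 ≤ n →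
  (∀ i, b i ≠ 0) → (∀ i, deriv (ψ i) 0 ≠ 0) → ∀ i : ZMod k,
  (∀ q, Kq n b ψ i q ≠ 0) ∧ Kq n b ψ i 0 = 1 ∧ Kq n b ψ i k = (rho n b)⁻¹ ∧
  (∀ q q' : ℕ, Kq n b ψ i (q + q') = Kq n b ψ i q * Kq n b ψ (i - (q : ZMod k)) q')

/-- DG: derivatives of the levels at the pole.
PROOF. Differentiate `G (q+1) u ^ n + c = G q u` at `u = 0`: `fd n (b (-(q+1))) * deriv (G (q+1)) 0 = deriv (G q) 0`. Induction. -/
def DG_stmt : Prop := ∀ (n k : ℕ) [NeZero k] (c : ℂ) (b g : ZMod k → ℂ) (ψ : ZMod k → ℂ → ℂ)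
  (R ε δ : ℝ) (A : ℕ → ℝ) (G : ℕ → ℂ → ℂ) (Q : ℕ), H1 n k c b g ψ R ε δ A G Q →
  deriv (G Q) 0 = Kq n b ψ 0 Q * deriv (ψ (-(Q : ZMod k))) 0

/-- INC2: INC1 with the value of `exp κ`, and the bound of `Re κ`.
PROOF. The proof of `MPS.INC1` (Pool/Agent/helper46/MP/INC1.lean): there `κ` is chosen with `exp κ = deriv (G Q) 0 / deriv (ψ (-Q)) 0` (`= Kq` by DG) and
`Re κ ≤ A Q + δ/8 + δ/32` is shown. -/
def INC2_stmt : Prop := ∀ (n k : ℕ) [NeZero k] (c : ℂ) (b g : ZMod k → ℂ) (ψ : ZMod k → ℂ → ℂ)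
  (R ε δ : ℝ) (A : ℕ → ℝ) (G : ℕ → ℂ → ℂ) (Q : ℕ), H1 n k c b g ψ R ε δ A G Q → 1 ≤ Q →
  ε ≤ δ ^ 2 / 1024 → ∃ (Φ : ℂ → ℂ) (κ : ℂ), DifferentiableOn ℂ Φ (HP (A Q + δ / 8)) ∧
    (∀ w ∈ HP (A Q + δ / 8), ‖Φ w - w - κ‖ ≤ δ / 32 ∧ deriv Φ w ^ 2 = tau b g (GW G) Q w ∧
      ‖deriv Φ w - 1‖ ≤ 1 / 4) ∧
    (∀ w ∈ HP (A Q + δ / 4), (Φ w).re < 0 ∧ hat (ψ (-(Q : ZMod k))) (Φ w) = GW G Q w) ∧
    Complex.exp κ = Kq n b ψ 0 Q ∧ κ.re ≤ A Q + δ / 2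

/-- P1W: Phase 1 as a black box.
PROOF. As at the beginning of the proof of `MPS.FR`: `R₀` from NG for `δ`, `ε₀ = δ³/10^16`, PH1; `H1` for every `Q ≤ k` by restriction. -/
def P1W_stmt : Prop := ∀ (n : ℕ) (δ : ℝ), 2 ≤ n → 0 < δ → δ ≤ 1 / 20 → ∃ R₀ : ℝ, 4 ≤ R₀ ∧
  ∃ ε₀ > (0 : ℝ), ∀ (k : ℕ) [NeZero k] (c : ℂ) (b g : ZMod k → ℂ) (ψ : ZMod k → ℂ → ℂ) (R ε : ℝ),
    SU n k c b g ψ R ε → R₀ ≤ R → ε ≤ ε₀ →
    ∃ G : ℕ → ℂ → ℂ, ∀ Q ≤ k, H1 n k c b g ψ R ε δ (fun _ => 3 * δ) G Q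

/-- PHW: Phase 2 as a black box. PROOF. The proof of `MPS.FR` (Pool/Agent/helper97/MP/FR.lean). -/
def PHW_stmt : Prop := ∀ (n : ℕ) (ρ₁ : ℝ), 2 ≤ n → 0 < ρ₁ → 16 * ρ₁ ≤ 1 → ∃ R₀ : ℝ, 4 ≤ R₀ ∧
  ∃ ε₀ > (0 : ℝ), ∀ (k : ℕ) [NeZero k] (c : ℂ) (b g : ZMod k → ℂ) (ψ : ZMod k → ℂ → ℂ) (R ε : ℝ),
    SU n k c b g ψ R ε → R₀ ≤ R → ε ≤ ε₀ → ∀ (y : ℝ) (χ : ℂ → ℂ),
    IsNat b g χ (HP 0 ∪ ball ((y : ℂ) * I) (16 * ρ₁)) → EqOn χ (hat (ψ 0)) (HP 0) →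
    ∃ (ps : ℕ) (G1 : ℕ → ℂ → ℂ) (r : ℝ) (G : ℕ → ℂ → ℂ),
      H2 n k c b g ψ R ε y ρ₁ χ G1 ps (fun _ => r) G k

/-- KRE: the transports are almost isometries.
PROOF. For the base point `i` (TR) P1W and INC2 with `Q = q`: `log‖Kq i q‖ = Re κ ≤ 3δ + δ/2`. For the lower bound COC: `Kq i q * Kq (i - q) (k - q) = ρ⁻¹`, so
`log‖Kq i q‖ ≥ -log‖ρ‖ - 7δ/2` (`q < k`; for `q = k` it is `-log‖ρ‖`), and `log‖ρ‖ ≤ ε/(2π)`. (`Kq` of the shifted data is `Kq (i + ·)`.) -/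
def KRE_stmt : Prop := ∀ (n : ℕ) (δ : ℝ), 2 ≤ n → 0 < δ → δ ≤ 1 / 20 → ∃ R₀ : ℝ, 4 ≤ R₀ ∧
  ∃ ε₀ > (0 : ℝ), ∀ (k : ℕ) [NeZero k] (c : ℂ) (b g : ZMod k → ℂ) (ψ : ZMod k → ℂ → ℂ) (R ε : ℝ),
    SU n k c b g ψ R ε → R₀ ≤ R → ε ≤ ε₀ →
    ∀ (i : ZMod k) (q : ℕ), 1 ≤ q → q ≤ k → |Real.log ‖Kq n b ψ i q‖| ≤ 5 * δ

/-- ROTQ: transport of a flat disc by `q` levels, with precise error.
PROOF. As `MPS.ROT` (Pool/Agent/helper6/MP/ROT.lean). `G' q = G1 q` on `ball 0 (exp (-3ρ₁/64))` (LRU, induction), and `G q = GW G' q` on the convex set `ball (iy) (5ρ₁/8) ∩ HP (3δ)` (both are levels over `hat (ψ 0)`, equal at `iy - ρ₁/4`: LRU, induction). INC2 for `G'`, `Q = q`: `Φ₁`, `κ` (`|Re κ| = |log‖Kq‖| ≤ 5δ`). On `ball (iy) (5ρ₁/8)`, PT2: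
`‖tau q - 1‖ ≤ 83200 ε/ρ₁² ≤ 10⁻⁴`; `Φ w = Φ₁ w₀ + ∫_{w₀}^w √(tau q)`, `w₀ = iy - ρ₁/4`, agrees with `Φ₁` on `HP (3δ + δ/8) ∩ ball (iy) (5ρ₁/8)`, and
`‖Φ w - w - κ‖ ≤ δ/32 + 83200 ε/ρ₁ ≤ δ`. For `v ∈ ball (i(y + Im κ)) (ρ₁/4)` the equation `Φ w = v` has a unique solution `w = H v ∈ ball (iy) (3ρ₁/8)`, `χ' = G q ∘ H`; it is natural and equals `hat (ψ (-q))` near
`i(y + Im κ) - ρ₁/8`, hence on `HP 0 ∩ ball`. Last claim: `‖Φ w - i(y + Im κ)‖ < ρ₁/5 + 6δ < ρ₁/4` and uniqueness of the solution. -/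
def ROTQ_stmt : Prop := ∀ (n k : ℕ) [NeZero k] (c : ℂ) (b g : ZMod k → ℂ) (ψ : ZMod k → ℂ → ℂ)
  (R ε y ρ₁ r δ : ℝ) (χ : ℂ → ℂ) (G1 : ℕ → ℂ → ℂ) (ps : ℕ) (G G' : ℕ → ℂ → ℂ),
  H2 n k c b g ψ R ε y ρ₁ χ G1 ps (fun _ => r) G k →
  (∀ Q ≤ k, H1 n k c b g ψ R ε δ (fun _ => 3 * δ) G' Q) → δ ≤ ρ₁ / 1000 → ε ≤ δ ^ 2 / 1024 →
  ε ≤ ρ₁ * δ / 10 ^ 6 → (∀ q : ℕ, 1 ≤ q → q ≤ k → |Real.log ‖Kq n b ψ 0 q‖| ≤ 5 * δ) →
  ∀ q : ℕ, 1 ≤ q → q ≤ k → ∃ (κ : ℂ) (Φ χ' : ℂ → ℂ), Complex.exp κ = Kq n b ψ 0 q ∧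
    |κ.re| ≤ 5 * δ ∧ (∀ w ∈ ball ((y : ℂ) * I) (ρ₁ / 2), ‖Φ w - w - κ‖ ≤ δ) ∧
    IsNat b g χ' (HP 0 ∪ ball (((y + κ.im : ℝ) : ℂ) * I) (ρ₁ / 4)) ∧
    EqOn χ' (hat (ψ (-(q : ZMod k)))) (HP 0) ∧
    ∀ w ∈ ball ((y : ℂ) * I) (ρ₁ / 5), Φ w ∈ ball (((y + κ.im : ℝ) : ℂ) * I) (ρ₁ / 4) ∧
      χ' (Φ w) = G q w

/-- FRQ: transport of flat discs.
PROOF. As `MPS.FR`: base point `i` by TR (`Kq` of the shifted data), PHW with `ρ₁ = ρ₀/16`, P1W and KRE with a small `δ`, ROTQ. `κ.im` and `arg (Kq)` differ by a multiple of `2π` (NOSL, periodicity). `q = 0` is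
trivial (NOSL, monotone). -/
def FRQ_stmt : Prop := ∀ (n : ℕ) (ρ₀ : ℝ), 2 ≤ n → 0 < ρ₀ → ρ₀ ≤ 1 → ∃ R₀ : ℝ, 4 ≤ R₀ ∧
  ∃ ε₀ > (0 : ℝ), ∀ (k : ℕ) [NeZero k] (c : ℂ) (b g : ZMod k → ℂ) (ψ : ZMod k → ℂ → ℂ) (R ε : ℝ),
    SU n k c b g ψ R ε → R₀ ≤ R → ε ≤ ε₀ → ∀ (i : ZMod k) (q : ℕ) (y : ℝ), q ≤ k →
      Flat b g (ψ i) y ρ₀ → Flat b g (ψ (i - (q : ZMod k))) (y + (Kq n b ψ i q).arg) (ρ₀ / 64)

/-- CMP: two systems of inverse branches over the same points coincide if all masses are on them.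
PROOF. Induction. `(G (q+1) w)^n + c = G q w = Ĝ q (S - w) = (Ĝ (q+1) (S - w))^n + c` near `w₀`, so `G (q+1) w = ω^j Ĝ (q+1) (S - w)` near `w₀` for a constant `j < n` (continuity, non zero values). Then
`tau G (q+1) w₀ = (deriv)² BB = bet Ĝ (q+1) j (S - w₀)` (`deriv (G (q+1)) w₀ = -ω^j deriv (Ĝ (q+1)) (S - w₀)`); for `1 ≤ j` its modulus is `≤ 1/4`, while `‖tau - 1‖ ≤ 1/4`. So `j = 0`. -/
def CMP_stmt : Prop := ∀ (n k : ℕ) [NeZero k] (c : ℂ) (b g : ZMod k → ℂ) (G G' : ℕ → ℂ → ℂ)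
  (Ω Ω' : Set ℂ) (w₀ S : ℂ) (Q : ℕ), 2 ≤ n → IsOpen Ω → IsOpen Ω' →
  LevSys n c b g G Ω Q → LevSys n c b g G' Ω' Q → w₀ ∈ Ω → S - w₀ ∈ Ω' →
  (∀ᶠ w in 𝓝 w₀, G 0 w = G' 0 (S - w)) →
  (∀ q, 1 ≤ q → q ≤ Q → ‖tau b g G q w₀ - 1‖ ≤ 1 / 4) →
  (∀ q, 1 ≤ q → q ≤ Q → ∀ j ∈ Finset.Ico 1 n, ‖bet n b g G' q j (S - w₀)‖ ≤ 1 / 4) →
  ∀ q ≤ Q, ∀ᶠ w in 𝓝 w₀, G q w = G' q (S - w)

/-- LT: transport of strips between different cylinders.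
PROOF. TR: base point `0` instead of `i`, `l` instead of `l - i`. `ρ₁ = r₀/16`, `δ` tiny (`≤ η/20`, `≤ ρ₁/10^4`). The strip gives `χ` on `HP 0 ∪ ball (iy) (16ρ₁)`; PHW: `H2`; P1W for the base `0` and (TR) for the base `l`, levels `Ĝ`
(`Ĝ q 0 = b (l - q)`); KRE; ROTQ: `κ, Φ, χ'`; INC2 for the base `l`: `κ'`, `Φ̂`. `w* = iy + ρ₁/8`, `χ w = hat (ψ l) (S - w)` near `w*`, `Re (S - w*) ≤ 16ρ₁/1000 - ρ₁/8 ≤ -ρ₁/10`. CMP (`Ω` = the ball of `H2`, `P2A` gives LevSys, PT2: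
`‖tau - 1‖ ≤ 1300·4 ε/ρ₁²`; `Ω' = HP (3δ)`, `P1A` gives LevSys, PT1 at depth `≥ ρ₁/16`): `G q w* = GW Ĝ q (S - w*) = hat (ψ (l - q)) (Φ̂ (S - w*))`. `v = Φ w*`, `v' = Φ̂ (S - w*)`, `χ' v = hat (ψ (l-q)) v'`; GL with
`e = r₀/200`, radius `ρ₁/4`; `S' = v + v'`, `‖S' - (S + κ + κ')‖ ≤ 2δ`. (`BB`, `IsNat`, `LevSys`, `tau`, `bet` do not depend on the shift of the index.) -/
def LT_stmt : Prop := ∀ (n : ℕ) (r₀ η : ℝ), 2 ≤ n → 0 < r₀ → r₀ ≤ 1 → 0 < η → ∃ R₀ : ℝ, 4 ≤ R₀ ∧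
  ∃ ε₀ > (0 : ℝ), ∀ (k : ℕ) [NeZero k] (c : ℂ) (b g : ZMod k → ℂ) (ψ : ZMod k → ℂ → ℂ) (R ε : ℝ),
    SU n k c b g ψ R ε → Fam b g ψ → R₀ ≤ R → ε ≤ ε₀ → ∀ (i l : ZMod k) (q : ℕ) (S : ℂ) (y : ℝ),
    i ≠ l → 1 ≤ q → q ≤ k → Strip b g (ψ i) (ψ l) S (y - r₀) (y + r₀) → S.re ≤ r₀ / 1000 →
    ∃ κ κ' S' : ℂ, Complex.exp κ = Kq n b ψ i q ∧ Complex.exp κ' = Kq n b ψ l q ∧
      ‖S' - (S + κ + κ')‖ ≤ η ∧ |κ.re| ≤ η ∧ |κ'.re| ≤ η ∧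
      Strip b g (ψ (i - (q : ZMod k))) (ψ (l - (q : ZMod k))) S' (y + κ.im - r₀ / 200)
        (y + κ.im + r₀ / 200)

/-- NG1: no wide strip if `2θ` is not near `0`.
PROOF. `q = k` in LT twice (`r₀`, then `r₀/200`; `Re S' ≤ r₀/10^6 + 3η ≤ r₀/200000`): `exp κ = ρ⁻¹`. With `θ = arg ρ` (after adding multiples of `2πi` to `S'`, and of `2π` to the directions: SYM): strips with directions `y`, `y - θ`, `y - 2θ` up
to `2η` at `b i` and `y'`, `y' - θ`, `y' - 2θ` up to `5η` at `b l`. These three directions are pairwise at distance `≥ min d₀ d₂ / 2` mod `2π`; so for small `η` they have the same cyclic order at both ends (reduce mod `2π` with the same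
integers). PLA. -/
def NG1_stmt : Prop := ∀ (n : ℕ) (d₀ d₂ r₀ : ℝ), 2 ≤ n → 0 < d₀ → 0 < d₂ → 0 < r₀ → r₀ ≤ 1 →
  ∃ R₀ : ℝ, 4 ≤ R₀ ∧
  ∃ ε₀ > (0 : ℝ), ∀ (k : ℕ) [NeZero k] (c : ℂ) (b g : ZMod k → ℂ) (ψ : ZMod k → ℂ → ℂ) (R ε : ℝ),
    SU n k c b g ψ R ε → Fam b g ψ → R₀ ≤ R → ε ≤ ε₀ → d₀ ≤ ‖rho n b / ‖rho n b‖ - 1‖ →
    d₂ ≤ ‖(rho n b / ‖rho n b‖) ^ 2 - 1‖ → ∀ (i l : ZMod k) (S : ℂ) (y : ℝ), i ≠ l →
    S.re ≤ r₀ / 10 ^ 6 → ¬ Strip b g (ψ i) (ψ l) S (y - r₀) (y + r₀)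

/-- NG2: no wide strip if the partner relation is symmetric (`2(l - i) = 0`).
PROOF. `l ≠ i`, `2l = 2i`. `q = (l - i).val`, `1 ≤ q < k`, `i - q = i - (l - i) = l` (as `2i = 2l`), `l - q = i`. R: LT with `q = k`: strip `(S₁, y₁)`, `S₁ ≈ S - 2L`, `y₁ ≈ y - θ`. LT with this `q`: strip from `ψ l` to `ψ i` with
`S_T ≈ S + κ + κ'`, `exp κ = Kq i q`, `exp κ' = Kq l q`, `exp (κ + κ') = Kq i (q + q)` (COC, `i - q = l`) `= ρ⁻¹` as `2q = k` (`2q ≡ 0` mod `k`, `0 < 2q < 2k`). So (mod `2πi`) `S_T ≈ S - L`; by SYM it is a strip from `ψ i` to `ψ l` with direction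
`z = Im S_T - (y + Im κ)`. UNQ: `z` is not within `r₀/2` of `y` or within `r₀/500` of `y₁` (mod `2π`): otherwise `S_T ≡ S` or `S_T ≡ S₁` mod `2πi`, i.e. `‖exp(iθ) - 1‖` small. At `b l`: `y'`, `y'₁ ≈ y' - θ`,
`z' = Im S_T - z ≈ y' - θ - (z - y)`. The reflection `x ↦ -θ - x` exchanges `0` and `-θ` and maps each of the two arcs of the circle between them to itself, so `(y, z, y₁)` and `(y', z', y'₁)` have the same cyclic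
order (`η` small compared with `r₀`). PLA. -/
def NG2_stmt : Prop := ∀ (n : ℕ) (d₀ r₀ : ℝ), 2 ≤ n → 0 < d₀ → 0 < r₀ → r₀ ≤ 1 →
  ∃ R₀ : ℝ, 4 ≤ R₀ ∧
  ∃ ε₀ > (0 : ℝ), ∀ (k : ℕ) [NeZero k] (c : ℂ) (b g : ZMod k → ℂ) (ψ : ZMod k → ℂ → ℂ) (R ε : ℝ),
    SU n k c b g ψ R ε → Fam b g ψ → R₀ ≤ R → ε ≤ ε₀ → d₀ ≤ ‖rho n b / ‖rho n b‖ - 1‖ →
    ∀ (i l : ZMod k) (S : ℂ) (y : ℝ), i ≠ l → i + i = l + l →
    S.re ≤ r₀ / 10 ^ 6 → ¬ Strip b g (ψ i) (ψ l) S (y - r₀) (y + r₀)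

/-- NG3: no wide strip if `θ` is near `π` and the partner relation is not symmetric.
PROOF. `q = (l - i).val`: LT gives a strip from `ψ (i - q) = ψ (2i - l)` to `ψ (l - q) = ψ i`; by SYM from `ψ i` to `ψ l'`, `l' = i + i - l ≠ l, i`, in a direction `z`. LT with `q = k` applied to both: directions `y`, `y₁ ≈ y - θ` (to `l`),
`z`, `z₁ ≈ z - θ` (to `l'`), all strips of half width `≥ r₀/40000`. By UNQ the directions of different partners are at distance `≥ r₀/40000` mod `2π`. If `‖exp(2iθ) - 1‖ ≤ d₂`, `d₂` and `η` small compared with `r₀`, then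
`y₁ ≈ y + π`, `z₁ ≈ z + π` up to less than `r₀/10^5`: they interlace. PLB. -/
def NG3_stmt : Prop := ∀ (n : ℕ) (d₀ r₀ : ℝ), 2 ≤ n → 0 < d₀ → 0 < r₀ → r₀ ≤ 1 →
  ∃ d₂ > (0 : ℝ), ∃ R₀ : ℝ, 4 ≤ R₀ ∧
  ∃ ε₀ > (0 : ℝ), ∀ (k : ℕ) [NeZero k] (c : ℂ) (b g : ZMod k → ℂ) (ψ : ZMod k → ℂ → ℂ) (R ε : ℝ),
    SU n k c b g ψ R ε → Fam b g ψ → R₀ ≤ R → ε ≤ ε₀ → d₀ ≤ ‖rho n b / ‖rho n b‖ - 1‖ →
    ‖(rho n b / ‖rho n b‖) ^ 2 - 1‖ ≤ d₂ → ∀ (i l : ZMod k) (S : ℂ) (y : ℝ), i ≠ l →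
    i + i ≠ l + l → S.re ≤ r₀ / 10 ^ 6 → ¬ Strip b g (ψ i) (ψ l) S (y - r₀) (y + r₀)

/-- NOG: no wide strip between different cylinders. PROOF. NG3 gives `d₂`, then NG1 with this `d₂`, NG2. -/
def NOG_stmt : Prop := ∀ (n : ℕ) (d₀ r₀ : ℝ), 2 ≤ n → 0 < d₀ → 0 < r₀ → r₀ ≤ 1 →
  ∃ R₀ : ℝ, 4 ≤ R₀ ∧
  ∃ ε₀ > (0 : ℝ), ∀ (k : ℕ) [NeZero k] (c : ℂ) (b g : ZMod k → ℂ) (ψ : ZMod k → ℂ → ℂ) (R ε : ℝ),
    SU n k c b g ψ R ε → Fam b g ψ → R₀ ≤ R → ε ≤ ε₀ → d₀ ≤ ‖rho n b / ‖rho n b‖ - 1‖ →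
    ∀ (i l : ZMod k) (S : ℂ) (y : ℝ), i ≠ l →
    S.re ≤ r₀ / 10 ^ 6 → ¬ Strip b g (ψ i) (ψ l) S (y - r₀) (y + r₀)

/-! ## Part W: windows -/

/-- FINS: finitely many critical directions of bounded depth. PROOF. END and PRONG: a finite set of `F` of slit directions in `[0, 2π)` has at most `∑ (m+2) ≤ 3 (2k-1)` elements (as in CNT). -/
def FINS_stmt : Prop := ∀ (k : ℕ) [NeZero k] (b g : ZMod k → ℂ) (ψ : ZMod k → ℂ → ℂ), Fam b g ψ →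
  ∀ (i : ZMod k) (d : ℝ), {y : ℝ | 0 ≤ y ∧ y < 2 * Real.pi ∧ Slit b g (ψ i) d y}.Finite

/-- DPR: elementary facts on depths.
PROOF. (1) supremum, as in ENA (for `d` of any sign: `¬ Slit t` for `t < 0`). (2) uniqueness. (3) `T ≥ 0`. (4) periodicity (NOSL). (5) a flat disc of radius `r` contains the strips of depth `< r`. (6) NOSL (first part) with depths:
if no critical direction of depth `≤ d` is within `d` of `y` then `Flat y d`. (7) some direction has depth `0` and no flat disc (NFM, NOSL). -/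
def DPR_stmt : Prop := ∀ (k : ℕ) [NeZero k] (b g : ZMod k → ℂ) (ψ : ZMod k → ℂ → ℂ), Fam b g ψ →
  ∀ i : ZMod k,
  (∀ y d, Slit b g (ψ i) d y → ∃ T, T ≤ d ∧ Dep b g (ψ i) y T) ∧
  (∀ y T T', Dep b g (ψ i) y T → Dep b g (ψ i) y T' → T = T') ∧
  (∀ y T, Dep b g (ψ i) y T → 0 ≤ T) ∧
  (∀ y T (m : ℤ), Dep b g (ψ i) y T → Dep b g (ψ i) (y + m * (2 * Real.pi)) T) ∧
  (∀ y T r, Flat b g (ψ i) y r → Dep b g (ψ i) y T → r ≤ T) ∧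
  (∀ y d, 0 < d → (∀ y' T, |y' - y| < d → Dep b g (ψ i) y' T → d < T) → Flat b g (ψ i) y d) ∧
  (∃ y, Dep b g (ψ i) y 0 ∧ ∀ r > (0 : ℝ), ¬ Flat b g (ψ i) y r)

/-- WSC: pigeonhole for the scales.
PROOF. The intervals `(s₀ M^(-t-1), s₀ M^(-t)]`, `t = 1..16`, are disjoint. Each of the (at most 5) numbers `T y` and each of the at most 10 unordered pairs (for `y ≠ y'` in `[0,2π)` there is at most one number
`‖y - y' - 2πm‖ ≤ 1` up to sign) is in at most one of them. -/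
def WSC_stmt : Prop := ∀ (F : Finset ℝ) (T : ℝ → ℝ) (M s₀ : ℝ), F.card ≤ 5 →
  (∀ y ∈ F, 0 ≤ y ∧ y < 2 * Real.pi) → 2 ≤ M → 0 < s₀ → s₀ ≤ 1 →
  ∃ t ∈ Finset.Icc (1 : ℕ) 16, (∀ y ∈ F, T y ≤ s₀ / M ^ (t + 1) ∨ s₀ / M ^ t < T y) ∧
    ∀ y ∈ F, ∀ y' ∈ F, ∀ m : ℤ, |y - y' - m * (2 * Real.pi)| ≤ s₀ / M ^ (t + 1) ∨
      s₀ / M ^ t < |y - y' - m * (2 * Real.pi)|

/-- WCL: clusters of a periodic set.
PROOF. On `Y` the relation `|y - y'| ≤ ω` is an equivalence relation (`2ω ≤ γ`); the minimal elements of the classes form a periodic set `C`, locally finite, with gaps `> γ`; enumerate it increasingly, `N` = the number of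
elements of `C ∩ [x, x + 2π)` for any `x`. -/
def WCL_stmt : Prop := ∀ (Y : Set ℝ) (ω γ : ℝ), 0 < ω → 2 * ω ≤ γ → γ ≤ 1 → Y.Nonempty →
  (∀ y ∈ Y, ∀ m : ℤ, y + m * (2 * Real.pi) ∈ Y) → (Y ∩ Ico 0 (2 * Real.pi)).Finite →
  (∀ y ∈ Y, ∀ y' ∈ Y, |y - y'| ≤ ω ∨ γ < |y - y'|) →
  ∃ (N : ℕ) (c : ℤ → ℝ), 1 ≤ N ∧ (∀ j, c j ∈ Y) ∧ (∀ j, c (j + N) = c j + 2 * Real.pi) ∧
    (∀ j, c j + γ < c (j + 1)) ∧ ∀ y ∈ Y, ∃ j, |y - c j| ≤ ω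

/-- WB: the windows of one cylinder.
PROOF. CNT with depth `1`: `i₀` and the finite set `F` of its (at most 5) slit directions of depth `≤ 1` in `[0,2π)` (FINS); `T y` = depth (DPR (1)). WSC: `t`; `γ = s₀/M^t`, `d = s₀/M^(t+1)`. By periodicity every critical direction has depth `≤ d` or `> γ` (`γ ≤ 1`).
`Y` = critical directions of depth `≤ d`: non empty (DPR (7)), periodic, two of them are at distance `≤ d` or `> γ`. WCL (`ω = d`). -/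
def WB_stmt : Prop := ∀ (k : ℕ) [NeZero k] (b g : ZMod k → ℂ) (ψ : ZMod k → ℂ → ℂ), Fam b g ψ →
  ∀ (M s₀ : ℝ), 2 ≤ M → 0 < s₀ → s₀ ≤ 1 → ∃ i₀ : ZMod k, ∃ t ∈ Finset.Icc (1 : ℕ) 16,
    ∃ (N : ℕ) (ce : ℤ → ℝ), 1 ≤ N ∧ (∀ j, ce (j + N) = ce j + 2 * Real.pi) ∧
      (∀ j, ce j + s₀ / M ^ t < ce (j + 1)) ∧
      (∀ y T, Dep b g (ψ i₀) y T → T ≤ s₀ / M ^ (t + 1) ∨ s₀ / M ^ t < T) ∧
      (∀ j, ∃ T, Dep b g (ψ i₀) (ce j) T ∧ T ≤ s₀ / M ^ (t + 1)) ∧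
      ∀ y T, Dep b g (ψ i₀) y T → T ≤ s₀ / M ^ (t + 1) → ∃ j, |y - ce j| ≤ s₀ / M ^ (t + 1)

/-- WR: rotation of the windows of one cylinder.
PROOF. `ω = γ/(2Λ)`, `d ≤ ω/100`. If `|ce j + θ - y| > ω` for all critical `y` of depth `≤ d` then (depth gap, DPR (6)) `Flat (ce j + θ) ω`, so `Flat (ce j) (ω/64)` and the depth of `ce j` is `≥ ω/64 > d` (DPR (5)): contradiction. So there is `σ j` with
`|ce (σ j) - (ce j + θ)| ≤ ω + d ≤ 2ω`. `σ (j + N) = σ j + N`, `σ` is injective on `ℤ` (gaps `> γ > 4ω`), hence induces a bijection of `ℤ/N`: every `j` is `σ j' + m N`. `N = 1` would give `|θ - 2πm| ≤ 2ω`, `‖exp (iθ) - 1‖ ≤ 2ω`. -/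
def WR_stmt : Prop := ∀ (k : ℕ) [NeZero k] (b g : ZMod k → ℂ) (ψ : ZMod k → ℂ → ℂ), Fam b g ψ →
  ∀ (i₀ : ZMod k) (γ Λ d θ : ℝ) (N : ℕ) (ce : ℤ → ℝ), 0 < γ → γ ≤ 1 → 1000 ≤ Λ → 0 < d →
  d ≤ γ / (256 * Λ ^ 3) → 1 ≤ N → (∀ j, ce (j + N) = ce j + 2 * Real.pi) →
  (∀ j, ce j + γ < ce (j + 1)) → (∀ y T, Dep b g (ψ i₀) y T → T ≤ d ∨ γ < T) →
  (∀ j, ∃ T, Dep b g (ψ i₀) (ce j) T ∧ T ≤ d) →
  (∀ y T, Dep b g (ψ i₀) y T → T ≤ d → ∃ j, |y - ce j| ≤ d) →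
  (∀ y, Flat b g (ψ i₀) y (γ / (2 * Λ)) → Flat b g (ψ i₀) (y - θ) (γ / (2 * Λ) / 64)) →
  γ < ‖Complex.exp (θ * I) - 1‖ →
  2 ≤ N ∧ ∀ j, ∃ (j' m : ℤ), |ce j' - (ce j - θ) + m * (2 * Real.pi)| ≤ γ / Λ

/-- WIN: the windows.
PROOF. `M = 256 Λ³`, `s₀ = min d₀ 1 / 100`, `Γ = {s₀/M^t | t = 1..16}`; `R₀`, `ε₀` from FRQ for the radii `ω = γ/(2Λ)` and `128 d`, `d = γ/M = γ/(256 Λ³)` (`γ ∈ Γ`). WB: `i₀`, `t`, `N`, `ce`; `γ = s₀/M^t`. `α i = arg (Kq i₀ ((i₀ - i).val))`. With `θ = arg ρ`, FRQ for `q = k`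
(`Kq = ρ⁻¹`, `arg ≡ -θ`, NOSL periodicity) gives the rotation hypothesis of WR; `‖exp (iθ) - 1‖ = ‖ρ/‖ρ‖ - 1‖ ≥ d₀ > γ`.
cov: if `|y - α i - ce j| > γ/Λ = 2ω` for all `j`, then all `y'` within `ω` of `y - α i` have depth `> γ` if any (gap, `|y' - ce j| > ω > d`): DPR (6): `Flat (ψ i₀) (y - α i) ω`; FRQ: `Flat (ψ i) y (ω/64)`; DPR (5): `T ≥ ω/64 = γ/(128Λ) > γ/Λ²`.
act: for `i = i₀` (`α i₀ = arg 1 = 0`) take `ce j`. Otherwise `q = (i₀ - i).val`, `q' = k - q`, `α i + arg (Kq i q') ≡ -θ` (COC). If the window `j` of `ψ i` has no critical direction of depth `≤ γ/Λ³ = 256 d` then (by cov) there is none within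
`γ/2` of `ce j + α i`; DPR (6): `Flat (ψ i) (ce j + α i + x) (128 d)` for `|x| ≤ 2γ/Λ`; FRQ with `q'`: `Flat (ψ i₀) (ce j - θ + x) (2d)` (mod `2π`); by WR some `ce j'` is such a point, and its depth is `≤ d`: contradiction to DPR (5). -/
def WIN_stmt : Prop := ∀ (n : ℕ) (d₀ Λ : ℝ), 2 ≤ n → 0 < d₀ → 1000 ≤ Λ →
  ∃ Γ : Finset ℝ, (∀ γ ∈ Γ, 0 < γ ∧ γ ≤ 1) ∧ ∃ R₀ : ℝ, 4 ≤ R₀ ∧
  ∃ ε₀ > (0 : ℝ), ∀ (k : ℕ) [NeZero k] (c : ℂ) (b g : ZMod k → ℂ) (ψ : ZMod k → ℂ → ℂ) (R ε : ℝ),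
    SU n k c b g ψ R ε → Fam b g ψ → R₀ ≤ R → ε ≤ ε₀ → d₀ ≤ ‖rho n b / ‖rho n b‖ - 1‖ →
    ∃ γ ∈ Γ, ∃ (N : ℕ) (ce : ℤ → ℝ) (α : ZMod k → ℝ), Win b g ψ γ Λ N ce α

/-- REP: existence of the chosen directions.
PROOF. For `0 ≤ j < N` the set of the critical directions of depth `≤ γ/Λ³` in the window is finite (FINS, periodicity) and non empty (`act`); take the minimal depth and then the largest `y`; extend periodically (`rep i (j + N) = rep i j + 2π`;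
`c (j + N) = c j + 2π`). -/
def REP_stmt : Prop := ∀ (k : ℕ) [NeZero k] (b g : ZMod k → ℂ) (ψ : ZMod k → ℂ → ℂ), Fam b g ψ →
  ∀ (γ Λ : ℝ) (N : ℕ) (ce : ℤ → ℝ) (α : ZMod k → ℝ), 0 < γ → γ ≤ 1 → 1000 ≤ Λ →
  Win b g ψ γ Λ N ce α → ∃ rep τ : ZMod k → ℤ → ℝ, Reps b g ψ γ Λ N ce α rep τ

/-! ## Part Z: zeros -/

/-- LOCZ: the local coordinate.
PROOF. `ζ ≠ b j` (TP), `BB z = (z - ζ)^m B₁ z`, `B₁ ζ ≠ 0`, `m` the multiplicity. As in PRQ (Pool/Agent/helper90/MP/PRQ.lean): `σ² = B₁`, `K z = ∫_0^1 2 u^(m+1) σ(ζ + u²(z-ζ)) du`, `(m+2)K + 2(z-ζ)K' = 2σ`, `K² = K₂^(m+2)` near `ζ`, `h = (z-ζ) K₂`.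
`Q = h^(m+2)`, `Q'^2 = 4 Q BB`, i.e. `(m+2)² h^m h'^2 = 4 BB` (divide by `h^(m+2)` for `z ≠ ζ`; continuity at `ζ`). `h' ζ ≠ 0`: injective on a small ball, open image. -/
def LOCZ_stmt : Prop := ∀ (k : ℕ) [NeZero k] (b g : ZMod k → ℂ), Function.Injective b →
  ∑ j, g j ≠ 0 → ∀ ζ : ℂ, (Ppoly b g).eval ζ = 0 →
  ∃ (h : ℂ → ℂ) (r s : ℝ), LocZ b g ζ ((Ppoly b g).rootMultiplicity ζ) h r s

/-- HIT: a critical direction reaches a zero along a prong.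
PROOF. END with `d = T + 1` gives `ζ` and `Ends` with a time `T_E`, and `T_E = T`: for `t < T_E` `¬ Slit t y` (`Ω` is open and left invariant: a strip around the ray), so `T_E ≤ T`; if `T_E < T`, an extension beyond `T_E` has at `T_E + iy` the
value `ζ` with `BB ζ ≠ 0` (`IsNat.eq`), but `P ζ = 0`, `ζ ≠ b j`, so `BB ζ = 0` (TP). Given `LocZ`: as in PRONG (Pool/Agent/helper6/MP/PRONG.lean): `q = h^(m+2) ∘ γ`, `q'^2 = 4q`, `q → 0`: PRC gives `q t = (t-T)²`. So `h(γ t)/(T-t)^(2/(m+2))` is a continuous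
function with values in the `(m+2)`-th roots of unity: constant near `T`. -/
def HIT_stmt : Prop := ∀ (k : ℕ) [NeZero k] (b g : ZMod k → ℂ) (i : ZMod k) (ψ : ℂ → ℂ) (y T : ℝ),
  Function.Injective b → ∑ j, g j ≠ 0 → PN b g i ψ 1 → Dep b g ψ y T →
  ∃ ζ : ℂ, (Ppoly b g).eval ζ = 0 ∧ ∀ (h : ℂ → ℂ) (r s : ℝ),
    LocZ b g ζ ((Ppoly b g).rootMultiplicity ζ) h r s →
    ∃ a, Hit b g ψ y T ζ ((Ppoly b g).rootMultiplicity ζ) h r a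

/-- HINJ: different rays use different prongs.
PROOF. As in PRONG: at the distance `s` before `ζ` both rays are at the same point (`h` injective) and have the same derivative (differentiate `h(γ(T - s)) = s^(2/(m+2)) e^{..}`), so NU with `s = 1`; shift to the left: `i = l` and
`exp (iy) = exp (iy')` (NI; and `T = T'`). -/
def HINJ_stmt : Prop := ∀ (k : ℕ) [NeZero k] (b g : ZMod k → ℂ) (ψ : ZMod k → ℂ → ℂ), Fam b g ψ →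
  ∀ (i l : ZMod k) (y y' T T' : ℝ) (ζ : ℂ) (m : ℕ) (h : ℂ → ℂ) (r s : ℝ) (a : ZMod (m + 2)),
  LocZ b g ζ m h r s → Hit b g (ψ i) y T ζ m h r a → Hit b g (ψ l) y' T' ζ m h r a →
  i = l ∧ ∃ N : ℤ, y' = y + N * (2 * Real.pi)

/-- HPER: periodicity of `Hit`. PROOF. Translate `χ`, `Ω` by `2πi m'` (`χ w = hat ψ w` on `HP 0` is periodic; `Ω` need not be periodic). -/
def HPER_stmt : Prop := ∀ (k : ℕ) [NeZero k] (b g : ZMod k → ℂ) (ψ : ℂ → ℂ) (y T : ℝ) (ζ : ℂ) (m : ℕ)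
  (h : ℂ → ℂ) (r : ℝ) (a : ZMod (m + 2)) (m' : ℤ), Hit b g ψ y T ζ m h r a →
  Hit b g ψ (y + m' * (2 * Real.pi)) T ζ m h r a

/-- ADJ: adjacent prongs give a strip (below the first ray, above the second one).
PROOF. `p = 2/(m+2)`. On `{w | w.im < 0}` (and across the two half lines, away from `0`) let `F w = (-w)^p e^{2πia/(m+2)}` with `arg (-w)` near `[0,π]`; for `‖w‖` small `F w ∈ ball 0 s` and `κ w = h⁻¹ (F w)` is holomorphic with `κ'^2 BB(κ) = 1`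
(`(m+2)² F^m F'^2/4 = 1`). For `w = -x`, `x > 0` small: `F w = x^p e^{2πia/(m+2)}`, so `κ (-x) = χ_i (T - x + iy)`; for `w = x`: `F w = x^p e^{2πi(a+1)/(m+2)}`, `κ x = χ_l (T' - x + iy')`. By the identity theorem
`χ_i (T + iy + w) = κ w` for `w` near `-x` and `χ_l (T' + iy' - w) = κ w` for `w` near `x`. For small `e` the strip `y - e < Im w < y` is covered by: the domain of `χ_i` for `Re w < T - x/2` (compactness of the segment, left invariance), the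
half disc for `|Re w - T| < 2x`, and `S -` (domain of `χ_l`) for `Re w > T + x/2`, `S = T + T' + i(y + y')`; the maps agree on the overlaps (identity theorem on convex sets). -/
def ADJ_stmt : Prop := ∀ (k : ℕ) [NeZero k] (b g : ZMod k → ℂ) (ψ : ZMod k → ℂ → ℂ), Fam b g ψ →
  ∀ (i l : ZMod k) (y y' T T' : ℝ) (ζ : ℂ) (m : ℕ) (h : ℂ → ℂ) (r s : ℝ) (a : ZMod (m + 2)),
  LocZ b g ζ m h r s → 0 ≤ T → 0 ≤ T' → Hit b g (ψ i) y T ζ m h r a →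
  Hit b g (ψ l) y' T' ζ m h r (a + 1) →
  ∃ e > (0 : ℝ), Strip b g (ψ i) (ψ l) (((T + T' : ℝ) : ℂ) + ((y + y' : ℝ) : ℂ) * I) (y - e) y

/-! ## Part C: conclusion -/

/-- CONF: adjacent chosen rays force a strip over a whole arc.
PROOF. ADJ, STR with `y = rep i j`: `w₀, ta, tb`; `ta + tb ≤ Re S = τ i j + τ l j' ≤ 2γ/Λ³ ≤ γ/Λ²`, so (`ta, tb ≥ 0`, `cov`) `y - w₀` is in a window `j₁` of `i`, `Im S - y + w₀ = rep l j' + w₀` in a window `j₁'` of `l`; `j₁ ≤ j`, `j₁' ≥ j'`. If `j₁ = j` or `j₁' = j'` then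
`w₀ ≤ 2γ/Λ < γ - 2γ/Λ`, so both hold, `ta ≥ τ i j`, `tb ≥ τ l j'` (`min`), equality, and `rep l j' + w₀ ≤ rep l j'` (`min`, second part): contradiction. So `j₁ ≤ j - 1`, `j₁' ≥ j' + 1`. If `j₁ ≤ j - 2` the critical direction `rep i (j-1)` is strictly
inside the strip: contradiction to SYM (4). Similarly `j₁' = j' + 1` (SYM (1), (4)). -/
def CONF_stmt : Prop := ∀ (k : ℕ) [NeZero k] (b g : ZMod k → ℂ) (ψ : ZMod k → ℂ → ℂ), Fam b g ψ →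
  ∀ (γ Λ : ℝ) (N : ℕ) (ce : ℤ → ℝ) (α : ZMod k → ℝ) (rep τ : ZMod k → ℤ → ℝ), 0 < γ → γ ≤ 1 →
  1000 ≤ Λ → Win b g ψ γ Λ N ce α → Reps b g ψ γ Λ N ce α rep τ →
  ∀ (i l : ZMod k) (j j' : ℤ) (ζ : ℂ) (m : ℕ) (h : ℂ → ℂ) (r s : ℝ) (a : ZMod (m + 2)),
  LocZ b g ζ m h r s → Hit b g (ψ i) (rep i j) (τ i j) ζ m h r a →
  Hit b g (ψ l) (rep l j') (τ l j') ζ m h r (a + 1) →
  ∃ w₀ : ℝ, 0 < w₀ ∧ Strip b g (ψ i) (ψ l)
      (((τ i j + τ l j' : ℝ) : ℂ) + ((rep i j + rep l j' : ℝ) : ℂ) * I) (rep i j - w₀) (rep i j) ∧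
    |rep i j - w₀ - (ce (j - 1) + α i)| ≤ γ / Λ ∧ |rep l j' + w₀ - (ce (j' + 1) + α l)| ≤ γ / Λ

/-- SELF: the chosen rays of one cylinder do not all end at one simple zero.
PROOF. Prong indices in `ZMod 3`, injective on the `N` rays `j = 0..N-1` (HINJ), so `N ∈ {2,3}`. `N = 2`: one of the two is the successor of the other: `j' ≡ j - 1` mod `2`; use the lift `j' = j - 1` of the second ray (Hit and everything are periodic). CONF: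
strip over `(rep j - w₀, rep j)` with `Im S = rep j + rep (j-1)`, and `Im S/2` is inside: `rep j - w₀` is within `2γ/Λ` of `rep (j-1)`. FOLD. `N = 3`: the successor map of `ZMod 3` is a cyclic permutation of the three rays: `j ↦ j - 1` for some `j`: FOLD
as before; or `j ↦ j + 1` for all `j` (mod `3`): CONF for `(0, 1)`: the arc between the windows `-1` and `0` is glued to the arc between `1` and `2`; for `(1, 2)`: the arc between `0` and `1` is glued to the arc between `2` and `3`; by SYM (1), (2) the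
arc between `-1` and `0` (translate by `-2π`) is glued to the arc between `0` and `1`. UNQ in the middle of the arc between `-1` and `0`: the partner directions `Im S - y`, which are in the arcs `(1,2)` and `(0,1)` up to a multiple of `2π`, agree mod `2π`:
contradiction. -/
def SELF_stmt : Prop := ∀ (k : ℕ) [NeZero k] (b g : ZMod k → ℂ) (ψ : ZMod k → ℂ → ℂ), Fam b g ψ →
  ∀ (γ Λ : ℝ) (N : ℕ) (ce : ℤ → ℝ) (α : ZMod k → ℝ) (rep τ : ZMod k → ℤ → ℝ), 0 < γ → γ ≤ 1 →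
  1000 ≤ Λ → Win b g ψ γ Λ N ce α → Reps b g ψ γ Λ N ce α rep τ →
  ∀ (i : ZMod k) (ζ : ℂ) (h : ℂ → ℂ) (r s : ℝ), LocZ b g ζ 1 h r s →
  ¬ ∀ j : ℤ, ∃ a, Hit b g (ψ i) (rep i j) (τ i j) ζ 1 h r a

/-- COMB: the count.
PROOF. For a zero `z` hit by at least two cylinders: for each of two cylinders `i` there is a ray `p` of `i` at `z` such that the successor of `a p` is not the index of a ray of `i` (otherwise the indices of the rays of `i` would be everything), hence not of any ray: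
two different free indices, so the number of rays at `z` is `≤ m z`. A zero hit by one cylinder only has `m z ≥ 1`. For a cylinder `i`: give it the number of its rays at shared zeros, and `m z` for its private zeros; the sum over `i` is `≤ ∑ m`. Each `i` gets `≥ 2`: if its rays
hit two different zeros, clear; if all `N ≥ 2` rays hit one shared zero, `N ≥ 2`; if they hit one private zero `z`, `m z ≥ 2` by the last hypothesis. -/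
def COMB_stmt : Prop := ∀ (k N : ℕ) [NeZero k] [NeZero N] (Z : Finset ℂ) (m : ℂ → ℕ)
  (ze : ZMod k × ZMod N → ℂ) (a : ZMod k × ZMod N → ℕ), 2 ≤ N → (∀ z ∈ Z, 1 ≤ m z) →
  (∀ p, ze p ∈ Z) → (∀ p, a p < m (ze p) + 2) → (∀ p p', ze p = ze p' → a p = a p' → p = p') →
  (∀ p p', ze p = ze p' → a p' = (a p + 1) % (m (ze p) + 2) → p.1 = p'.1) →
  (∀ i, ¬ ((∀ j, ze (i, j) = ze (i, 0)) ∧ m (ze (i, 0)) = 1)) →
  2 * k ≤ ∑ z ∈ Z, m z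

/-- MAINB: Theorem A' with the single exceptional point `1`.
PROOF. `Λ = 1000`. WIN: `Γ`, `R₀`, `ε₀`; NOG with `r₀ = γ/8` for `γ ∈ Γ`; `R` = maximum, `ε` = minimum. NM gives `ψ`, so `SU` and `Fam`. WIN: `γ`, windows; REP. For every ray `p = (i,j)`, `j = 0..N-1`: HIT gives the zero `ze p`; LOCZ (one choice of `h`, `r`, `s` for every zero),
`a p = (index).val`. `Z` = roots of `Ppoly`, `m` = multiplicity. Injectivity: HINJ (`rep i j`, `rep i j'` for `0 ≤ j, j' < N` are not congruent mod `2π` if `j ≠ j'`). Adjacency for `i ≠ l`: CONF: `w₀ ≥ γ - 2γ/Λ ≥ γ/2`; the strip over `(rep - w₀, rep)` contains one of half width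
`γ/8` (centre `rep - w₀/2`), `Re S ≤ 2γ/Λ³ ≤ (γ/8)/10^6`: contradiction to NOG. Last hypothesis of COMB: SELF (all `j`, by periodicity of Hit). COMB: `2k ≤ ∑ m ≤ natDegree = 2k - 1` (TP). -/
def MAINB_stmt : Prop := ∀ (n : ℕ) (d₀ : ℝ), 2 ≤ n → 0 < d₀ → ∃ R : ℝ, 4 ≤ R ∧ ∃ ε > (0 : ℝ),
  ∀ (k : ℕ) [NeZero k] (c : ℂ) (b g : ZMod k → ℂ), 2 ≤ k → ‖c‖ ≤ 3 → IsCyc n c b →
  1 < ‖rho n b‖ → d₀ ≤ ‖rho n b / ‖rho n b‖ - 1‖ → ∑ i, g i ≠ 0 →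
  ¬ (2 * Real.pi * Real.log ‖rho n b‖ + 4 * ∫ z in ball (0 : ℂ) R, ‖er n c b g z‖ ≤ ε)

/-- THB: Theorem A. PROOF. As THA (Pool/Agent/helper20/MP/THA.lean), from MAINB and TGP. -/
def THB_stmt : Prop := ∀ (n : ℕ) (d₀ : ℝ), 2 ≤ n → 0 < d₀ → ∃ ε > (0 : ℝ),
  ∀ (k : ℕ) [NeZero k] (c : ℂ) (b g : ZMod k → ℂ), 2 ≤ k → ‖c‖ ≤ 3 → IsCyc n c b →
  1 < ‖rho n b‖ → d₀ ≤ ‖rho n b / ‖rho n b‖ - 1‖ →
  (∀ i, g (i + 1) = g i / fd n (b i) - fdd n (b i) / fd n (b i) ^ 2) →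
  ε ≤ Real.log ‖rho n b‖ + ‖∑ i, g i‖

end MQ
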